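import Mathlib
import Pool.Agent.Helper60.GP.Defs

/-!
# Block NB (norm bound) for the product inequality of the circle problem (helper14)
-/

open Filter MeasureTheory Set
open scoped Real

namespace Pool.Agent.Helper60.GP

open Pool.Agent.Helper22.GC Pool.Agent.Helper53.OM Pool.Agent.Helper22.RZ

noncomputable section

namespace NB

/-- signed sum of square roots, `+` on `A`, `-` outside `A` -/
def Ls (S A : Finset ℕ) : ℝ := ∑ i ∈ S, if i ∈ A then √(i : ℝ) else -√(i : ℝ)

/-- product over all signs -/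
def Fp (S : Finset ℕ) (t : ℝ) : ℝ := ∏ A ∈ S.powerset, (t + Ls S A)

theorem Ls_insert_of_sub {S A : Finset ℕ} {a : ℕ} (ha : a ∉ S) (hA : A ⊆ S) :
    Ls (insert a S) A = Ls S A - √(a : ℝ) := by
  unfold Ls
  rw [Finset.sum_insert ha, if_neg fun h => ha (hA h)]
  ring

theorem Ls_insert_insert {S A : Finset ℕ} {a : ℕ} (ha : a ∉ S) :
    Ls (insert a S) (insert a A) = Ls S A + √(a : ℝ) := by
  unfold Ls
  rw [Finset.sum_insert ha, if_pos (Finset.mem_insert_self a A), add_comm]
  congr 1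
  refine Finset.sum_congr rfl fun i hi => ?_
  have hne : i ≠ a := fun h => ha (h ▸ hi)
  by_cases h : i ∈ A
  · rw [if_pos h, if_pos (Finset.mem_insert_of_mem h)]
  · rw [if_neg h, if_neg]
    intro h'
    rcases Finset.mem_insert.1 h' with h' | h'
    · exact hne h'
    · exact h h'

theorem Fp_insert {S : Finset ℕ} {a : ℕ} (ha : a ∉ S) (t : ℝ) :
    Fp (insert a S) t = Fp S (t - √(a : ℝ)) * Fp S (t + √(a : ℝ)) := by
  unfold Fp
  rw [Finset.prod_powerset_insert ha]
  congr 1
  · refine Finset.prod_congr rfl fun A hA => ?_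
    rw [Ls_insert_of_sub ha (Finset.mem_powerset.1 hA)]
    ring
  · refine Finset.prod_congr rfl fun A _ => ?_
    rw [Ls_insert_insert ha]
    ring

/-- `g (t + z) = A t + z B t` when `z ^ 2 = n` -/
theorem split (g : Polynomial ℤ) (n : ℕ) : ∃ A B : Polynomial ℤ, ∀ t z : ℝ, z ^ 2 = n →
    Polynomial.aeval (t + z) g = Polynomial.aeval t A + z * Polynomial.aeval t B := by
  induction g using Polynomial.induction_on with
  | C a =>
    refine ⟨Polynomial.C a, 0, fun t z _ => ?_⟩
    simp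
  | add p q hp hq =>
    obtain ⟨A, B, h1⟩ := hp
    obtain ⟨A', B', h2⟩ := hq
    refine ⟨A + A', B + B', fun t z hz => ?_⟩
    rw [map_add, map_add, map_add, h1 t z hz, h2 t z hz]
    ring
  | monomial m a h =>
    obtain ⟨A, B, h1⟩ := h
    refine ⟨A * Polynomial.X + Polynomial.C (n : ℤ) * B, A + B * Polynomial.X, fun t z hz => ?_⟩
    have : (Polynomial.C a * Polynomial.X ^ (m + 1) : Polynomial ℤ) =
        (Polynomial.C a * Polynomial.X ^ m) * Polynomial.X := by ring
    rw [this, map_mul, h1 t z hz]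
    simp only [map_add, map_mul, Polynomial.aeval_X, Polynomial.aeval_C]
    simp only [algebraMap_int_eq, eq_intCast, Int.cast_natCast]
    rw [← hz]
    ring

theorem prod_split (g : Polynomial ℤ) (n : ℕ) : ∃ g' : Polynomial ℤ, ∀ t : ℝ,
    Polynomial.aeval t g' =
      Polynomial.aeval (t - √(n : ℝ)) g * Polynomial.aeval (t + √(n : ℝ)) g := by
  obtain ⟨A, B, h⟩ := split g n
  have hn : (√(n : ℝ)) ^ 2 = n := Real.sq_sqrt (Nat.cast_nonneg n)
  refine ⟨A ^ 2 - Polynomial.C (n : ℤ) * B ^ 2, fun t => ?_⟩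
  rw [h t _ hn]
  have h2 := h t (-√(n : ℝ)) (by rw [neg_sq, hn])
  rw [← sub_eq_add_neg] at h2
  rw [h2]
  simp only [map_sub, map_mul, map_pow, Polynomial.aeval_C]
  simp only [algebraMap_int_eq, eq_intCast, Int.cast_natCast]
  nth_rewrite 1 [← hn]
  ring

theorem exists_poly (S : Finset ℕ) : ∃ g : Polynomial ℤ, ∀ t : ℝ, Polynomial.aeval t g = Fp S t := by
  induction S using Finset.induction_on with
  | empty => exact ⟨Polynomial.X, fun t => by simp [Fp, Ls]⟩
  | insert a S ha ih =>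
    obtain ⟨g, hg⟩ := ih
    obtain ⟨g', hg'⟩ := prod_split g a
    exact ⟨g', fun t => by rw [hg', hg, hg, Fp_insert ha]⟩

/-- the full product is an integer -/
theorem exists_int (S : Finset ℕ) (n : ℕ) :
    ∃ a : ℤ, Fp S (-√(n : ℝ)) * Fp S (√(n : ℝ)) = a := by
  obtain ⟨g, hg⟩ := exists_poly S
  obtain ⟨g', hg'⟩ := prod_split g n
  have h := hg' 0
  rw [zero_sub, zero_add, hg, hg] at h
  refine ⟨Polynomial.eval 0 g', ?_⟩
  rw [← h]
  have h2 : Polynomial.aeval (algebraMap ℤ ℝ 0) g' = algebraMap ℤ ℝ (Polynomial.eval 0 g') :=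
    Polynomial.aeval_algebraMap_apply_eq_algebraMap_eval 0 g'
  simpa using h2

theorem abs_Ls_le {S : Finset ℕ} {N : ℕ} (hS : ∀ q ∈ S, q ≤ N) (A : Finset ℕ) :
    |Ls S A| ≤ S.card * √(N : ℝ) := by
  unfold Ls
  refine (Finset.abs_sum_le_sum_abs _ _).trans ?_
  have : ∀ i ∈ S, |if i ∈ A then √(i : ℝ) else -√(i : ℝ)| ≤ √(N : ℝ) := by
    intro i hi
    have h1 : √(i : ℝ) ≤ √(N : ℝ) := Real.sqrt_le_sqrt (by exact_mod_cast hS i hi)
    split_ifs
    · rw [abs_of_nonneg (Real.sqrt_nonneg _)]; exact h1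
    · rw [abs_neg, abs_of_nonneg (Real.sqrt_nonneg _)]; exact h1
  refine (Finset.sum_le_card_nsmul _ _ _ this).trans ?_
  rw [nsmul_eq_mul]

theorem Fp_le {S : Finset ℕ} {B : ℝ} {t : ℝ} (h : ∀ A ∈ S.powerset, |t + Ls S A| ≤ B) :
    |Fp S t| ≤ B ^ (2 ^ S.card) := by
  unfold Fp
  rw [Finset.abs_prod]
  refine (Finset.prod_le_prod (fun _ _ => abs_nonneg _) h).trans ?_
  rw [Finset.prod_const, Finset.card_powerset]

theorem Fp_le' {S : Finset ℕ} {B : ℝ} {t : ℝ} (h : ∀ A ∈ S.powerset, |t + Ls S A| ≤ B)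
    {A : Finset ℕ} (hA : A ∈ S.powerset) :
    |Fp S t| ≤ |t + Ls S A| * B ^ (2 ^ S.card - 1) := by
  classical
  unfold Fp
  rw [Finset.abs_prod, ← Finset.mul_prod_erase _ _ hA]
  refine mul_le_mul_of_nonneg_left ?_ (abs_nonneg _)
  refine (Finset.prod_le_prod (fun _ _ => abs_nonneg _)
    (fun A' hA' => h A' (Finset.mem_of_mem_erase hA'))).trans ?_
  rw [Finset.prod_const, Finset.card_erase_of_mem hA, Finset.card_powerset]

/-- no signed sum vanishes -/
theorem ne_zero {S : Finset ℕ} (hS : ∀ q ∈ S, Squarefree q) {n : ℕ} (hn : 1 ≤ n) (hne : S ≠ {n})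
    {e : ℤ} (he : e = 1 ∨ e = -1) (A : Finset ℕ) : (e : ℝ) * √(n : ℝ) + Ls S A ≠ 0 := by
  classical
  intro h0
  obtain ⟨a, b, hab, hsq⟩ := Nat.sq_mul_squarefree n
  have hb : 1 ≤ b := by
    rcases Nat.eq_zero_or_pos b with h | h
    · rw [h] at hab; simp at hab; omega
    · exact h
  have hroot : √(n : ℝ) = b * √(a : ℝ) := by
    rw [← hab]
    push_cast
    rw [Real.sqrt_mul (by positivity), Real.sqrt_sq (by positivity)]
  set m : ℕ → ℤ := fun q => (if q = a then e * b else 0) +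
    (if q ∈ S then (if q ∈ A then 1 else -1) else 0) with hm
  have hsum : ∑ q ∈ insert a S, (m q : ℝ) * √(q : ℝ) = 0 := by
    have h1 : ∀ q ∈ insert a S, (m q : ℝ) * √(q : ℝ) =
        (if q = a then ((e * b : ℤ) : ℝ) * √(a : ℝ) else 0) +
        (if q ∈ S then (if q ∈ A then √(q : ℝ) else -√(q : ℝ)) else 0) := by
      intro q _
      simp only [hm]
      push_cast
      rw [add_mul]
      congr 1
      · split_ifs with h
        · rw [h]
        · simp
      · split_ifs <;> simp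
    rw [Finset.sum_congr rfl h1, Finset.sum_add_distrib, Finset.sum_ite_eq' (insert a S) a,
      if_pos (Finset.mem_insert_self a S), ← Finset.sum_filter]
    have h2 : (insert a S).filter (fun q => q ∈ S) = S := by
      ext q
      simp only [Finset.mem_filter, Finset.mem_insert]
      tauto
    rw [h2]
    have h3 : ∑ q ∈ S, (if q ∈ A then √(q : ℝ) else -√(q : ℝ)) = Ls S A := rfl
    rw [h3]
    push_cast
    rw [hroot] at h0
    linarith
  have hall := Pool.Agent.Helper78.GC.sqrt_indep (insert a S) (by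
    intro q hq
    rcases Finset.mem_insert.1 hq with h | h
    · rw [h]; exact hsq
    · exact hS q h) m hsum
  -- the coefficient of `a`
  have ha := hall a (Finset.mem_insert_self a S)
  simp only [hm, if_true] at ha
  have hb' : (1 : ℤ) ≤ b := by exact_mod_cast hb
  have haS : a ∈ S := by
    by_contra hcon
    rw [if_neg hcon] at ha
    rcases he with he | he <;> rw [he] at ha <;> omega
  rw [if_pos haS] at ha
  have hb1 : b = 1 := by
    split_ifs at ha <;> rcases he with he | he <;> rw [he] at ha <;> omega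
  have hna : n = a := by rw [← hab, hb1]; ring
  apply hne
  rw [hna]
  apply Finset.eq_singleton_iff_unique_mem.2 ⟨haS, ?_⟩
  intro q hq
  by_contra hqa
  have hq' := hall q (Finset.mem_insert_of_mem hq)
  simp only [hm] at hq'
  rw [if_neg hqa, if_pos hq] at hq'
  split_ifs at hq' <;> omega

end NB

/-- Block NB (norm bound) -/
theorem near_short {T : Finset ℕ} (hT : ∀ q ∈ T, Squarefree q) {N : ℕ} (hTN : T ⊆ Finset.Icc 1 N)
    {x : T → ℤ} (hx : x ∈ idx T) {n : ℕ} (hn : 1 ≤ n)
    (hne : ∀ h : n ∈ T, x ≠ Pi.single ⟨n, h⟩ 1) {Q : ℝ} (hQ : 1 ≤ Q) {s₀ : ℕ} 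
    (hs : nz T x < s₀) (hQ2 : (2 * T.card * √N + 1) ^ (2 ^ s₀) ≤ 2 * Q) :
    1 / (2 * Q) ≤ |lin T x - √n| := by
  classical
  have hQ0 : (0 : ℝ) < Q := by linarith
  have hQ1 : 1 / (2 * Q) ≤ 1 / 2 := by
    apply one_div_le_one_div_of_le (by norm_num)
    linarith
  have hn1 : 1 ≤ √(n : ℝ) := by
    rw [Real.one_le_sqrt]
    exact_mod_cast hn
  -- the support
  set S : Finset ℕ := (Finset.univ.filter (fun q : T => x q ≠ 0)).image (fun q : T => (q : ℕ)) with hS
  set A : Finset ℕ := (Finset.univ.filter (fun q : T => x q = 1)).image (fun q : T => (q : ℕ)) with hA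
  have hcard : S.card = nz T x := by
    rw [hS, Finset.card_image_of_injective _ Subtype.coe_injective]
    rfl
  have hST : S ⊆ T := by
    intro q hq
    rw [hS, Finset.mem_image] at hq
    obtain ⟨q', _, rfl⟩ := hq
    exact q'.2
  have hmemS : ∀ q : T, (q : ℕ) ∈ S ↔ x q ≠ 0 := by
    intro q
    rw [hS, Finset.mem_image]
    constructor
    · rintro ⟨q', hq', h⟩
      rw [← Subtype.ext h]
      exact (Finset.mem_filter.1 hq').2
    · intro h
      exact ⟨q, Finset.mem_filter.2 ⟨Finset.mem_univ _, h⟩, rfl⟩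
  have hmemA : ∀ q : T, (q : ℕ) ∈ A ↔ x q = 1 := by
    intro q
    rw [hA, Finset.mem_image]
    constructor
    · rintro ⟨q', hq', h⟩
      rw [← Subtype.ext h]
      exact (Finset.mem_filter.1 hq').2
    · intro h
      exact ⟨q, Finset.mem_filter.2 ⟨Finset.mem_univ _, h⟩, rfl⟩
  have hAS : A ⊆ S := by
    intro q hq
    rw [hA, Finset.mem_image] at hq
    obtain ⟨q', hq', rfl⟩ := hq
    rw [hmemS, (Finset.mem_filter.1 hq').2]
    exact one_ne_zero
  have hxm := mem_idx.1 hx
  have hlin : lin T x = NB.Ls S A := by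
    unfold lin NB.Ls
    rw [hS, Finset.sum_image (fun a _ b _ h => Subtype.ext h), Finset.sum_filter]
    refine Finset.sum_congr rfl fun q _ => ?_
    rcases hxm q with h | h | h
    · rw [if_pos (by rw [h]; norm_num), if_neg, h]
      · push_cast; ring
      · rw [hmemA, h]; norm_num
    · rw [if_neg (by rw [h]; simp), h]
      simp
    · rw [if_pos (by rw [h]; norm_num), if_pos ((hmemA q).2 h), h]
      simp
  by_cases hSn : S = {n}
  · -- `x = - e_n`
    have hnS : n ∈ S := by rw [hSn]; exact Finset.mem_singleton_self n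
    have hnT : n ∈ T := hST hnS
    have hx0 : ∀ q : T, q ≠ ⟨n, hnT⟩ → x q = 0 := by
      intro q hq
      by_contra hcon
      have := (hmemS q).2 hcon
      rw [hSn, Finset.mem_singleton] at this
      exact hq (Subtype.ext this)
    have hxn : x ⟨n, hnT⟩ ≠ 1 := by
      intro h
      apply hne hnT
      funext q
      by_cases hq : q = ⟨n, hnT⟩
      · rw [hq, h, Pi.single_eq_same]
      · rw [hx0 q hq, Pi.single_eq_of_ne hq]
    have hAe : A = ∅ := by
      rw [Finset.eq_empty_iff_forall_notMem]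
      intro q hq
      have h1 := hAS hq
      rw [hSn, Finset.mem_singleton] at h1
      rw [h1] at hq
      exact hxn ((hmemA ⟨n, hnT⟩).1 hq)
    rw [hlin, hSn, hAe]
    have : NB.Ls {n} ∅ = -√(n : ℝ) := by simp [NB.Ls]
    rw [this]
    have h2 : |-√(n : ℝ) - √(n : ℝ)| = 2 * √(n : ℝ) := by
      rw [show -√(n : ℝ) - √(n : ℝ) = -(2 * √(n : ℝ)) by ring, abs_neg,
        abs_of_nonneg (by positivity)]
    rw [h2]
    linarith
  · by_contra hcon
    rw [not_le] at hcon
    have hSsq : ∀ q ∈ S, Squarefree q := fun q hq => hT q (hST hq)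
    have hSN : ∀ q ∈ S, q ≤ N := fun q hq => (Finset.mem_Icc.1 (hTN (hST hq))).2
    have hN0 : 0 ≤ √(N : ℝ) := Real.sqrt_nonneg _
    have hcT : (S.card : ℝ) ≤ T.card := by exact_mod_cast Finset.card_le_card hST
    set B : ℝ := 2 * T.card * √N + 1 with hB
    have hB1 : 1 ≤ B := by
      rw [hB]
      have : 0 ≤ 2 * (T.card : ℝ) * √(N : ℝ) := by positivity
      linarith
    have hLs : ∀ A', |NB.Ls S A'| ≤ T.card * √(N : ℝ) := fun A' =>
      (NB.abs_Ls_le hSN A').trans (mul_le_mul_of_nonneg_right hcT hN0)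
    have hroot : √(n : ℝ) ≤ T.card * √(N : ℝ) + 1 := by
      have h1 := hLs A
      rw [hlin] at hcon
      have h2 := abs_lt.1 (hcon.trans_le hQ1)
      have h3 := abs_le.1 h1
      linarith [h2.1, h3.2]
    have hb1 : ∀ A' ∈ S.powerset, |(-√(n : ℝ)) + NB.Ls S A'| ≤ B := by
      intro A' _
      refine (abs_add_le _ _).trans ?_
      rw [abs_neg, abs_of_nonneg (Real.sqrt_nonneg _), hB]
      have := hLs A'
      linarith
    have hb2 : ∀ A' ∈ S.powerset, |(√(n : ℝ)) + NB.Ls S A'| ≤ B := by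
      intro A' _
      refine (abs_add_le _ _).trans ?_
      rw [abs_of_nonneg (Real.sqrt_nonneg _), hB]
      have := hLs A'
      linarith
    have hne0 : NB.Fp S (-√(n : ℝ)) * NB.Fp S (√(n : ℝ)) ≠ 0 := by
      apply mul_ne_zero
      · unfold NB.Fp
        rw [Finset.prod_ne_zero_iff]
        intro A' _
        have := NB.ne_zero hSsq hn hSn (Or.inr rfl : (-1 : ℤ) = 1 ∨ (-1 : ℤ) = -1) A'
        simpa using this
      · unfold NB.Fp
        rw [Finset.prod_ne_zero_iff]
        intro A' _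
        have := NB.ne_zero hSsq hn hSn (Or.inl rfl : (1 : ℤ) = 1 ∨ (1 : ℤ) = -1) A'
        simpa using this
    obtain ⟨a, ha⟩ := NB.exists_int S n
    have ha1 : (1 : ℝ) ≤ |NB.Fp S (-√(n : ℝ)) * NB.Fp S (√(n : ℝ))| := by
      rw [ha] at hne0 ⊢
      have : a ≠ 0 := by
        intro h
        rw [h] at hne0
        simp at hne0
      have h1 : 1 ≤ |a| := Int.one_le_abs this
      exact_mod_cast h1
    have h1 := NB.Fp_le' hb1 (Finset.mem_powerset.2 hAS)
    have h2 := NB.Fp_le hb2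
    have hB0 : 0 ≤ B := by linarith
    have h3 : |NB.Fp S (-√(n : ℝ)) * NB.Fp S (√(n : ℝ))| ≤
        |-√(n : ℝ) + NB.Ls S A| * B ^ (2 ^ s₀) := by
      rw [abs_mul]
      calc |NB.Fp S (-√(n : ℝ))| * |NB.Fp S (√(n : ℝ))|
          ≤ (|-√(n : ℝ) + NB.Ls S A| * B ^ (2 ^ S.card - 1)) * B ^ (2 ^ S.card) :=
            mul_le_mul h1 h2 (abs_nonneg _) (by positivity)
        _ = |-√(n : ℝ) + NB.Ls S A| * B ^ (2 ^ S.card - 1 + 2 ^ S.card) := by
            rw [pow_add]; ring
        _ ≤ |-√(n : ℝ) + NB.Ls S A| * B ^ (2 ^ s₀) := by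
            apply mul_le_mul_of_nonneg_left _ (abs_nonneg _)
            apply pow_le_pow_right₀ hB1
            have h4 : 2 ^ (S.card + 1) ≤ 2 ^ s₀ :=
              Nat.pow_le_pow_right (by norm_num) (by rw [hcard]; omega)
            rw [pow_succ] at h4
            omega
    have h5 : |-√(n : ℝ) + NB.Ls S A| = |lin T x - √n| := by
      rw [hlin, neg_add_eq_sub]
    rw [h5] at h3
    have h6 : |lin T x - √n| * B ^ (2 ^ s₀) ≤ |lin T x - √n| * (2 * Q) :=
      mul_le_mul_of_nonneg_left hQ2 (abs_nonneg _)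
    have h7 : |lin T x - √n| * (2 * Q) < 1 / (2 * Q) * (2 * Q) :=
      mul_lt_mul_of_pos_right hcon (by linarith)
    have h8 : 1 / (2 * Q) * (2 * Q) = 1 := by field_simp
    rw [h8] at h7
    linarith

end

end Pool.Agent.Helper60.GP
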