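import Mathlib

/-!
Project GP (MP_b8862a_ag): the matrix of the orthogonal projection onto a subspace.
-/

set_option linter.unusedSectionVars false

open Matrix

namespace MH

variable {n : Type*} [Fintype n] [DecidableEq n]

/-- the orthogonal projection onto a subspace -/
theorem exists_oproj (W : Submodule ℂ (n → ℂ)) : ∃ e : Matrix n n ℂ, eᴴ = e ∧ e * e = e ∧
    (∀ v ∈ W, e *ᵥ v = v) ∧ ∀ v, e *ᵥ v ∈ W := by
  let L : EuclideanSpace ℂ n ≃ₗ[ℂ] (n → ℂ) := WithLp.linearEquiv 2 ℂ (n → ℂ)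
  let W2 : Submodule ℂ (EuclideanSpace ℂ n) := W.comap L.toLinearMap
  let f : EuclideanSpace ℂ n →ₗ[ℂ] EuclideanSpace ℂ n := (W2.starProjection : EuclideanSpace ℂ n →L[ℂ] _)
  let e : Matrix n n ℂ := Matrix.toEuclideanLin.symm f
  have hf : Matrix.toEuclideanLin e = f := by simp [e]
  have hap : ∀ v : n → ℂ, e *ᵥ v = L (f (L.symm v)) := by
    intro v
    rw [← hf]
    rfl
  have h1 : ∀ v ∈ W, e *ᵥ v = v := by
    intro v hv
    rw [hap]
    have h2 : L.symm v ∈ W2 := by
      show L (L.symm v) ∈ W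
      rw [LinearEquiv.apply_symm_apply]
      exact hv
    have h3 : f (L.symm v) = L.symm v := Submodule.starProjection_eq_self_iff.2 h2
    rw [h3, LinearEquiv.apply_symm_apply]
  have h4 : ∀ v, e *ᵥ v ∈ W := by
    intro v
    rw [hap]
    have h5 : f (L.symm v) ∈ W2 := Submodule.starProjection_apply_mem _ _
    exact h5
  refine ⟨e, ?_, ?_, h1, h4⟩
  · have h6 : (Matrix.toEuclideanLin e).IsSymmetric := by
      rw [hf]
      exact W2.starProjection_isSymmetric
    exact Matrix.isSymmetric_toEuclideanLin_iff.1 h6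
  · apply Matrix.toLin'.injective
    apply LinearMap.ext
    intro v
    rw [Matrix.toLin'_apply, Matrix.toLin'_apply, ← Matrix.mulVec_mulVec]
    exact h1 _ (h4 v)

end MH
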