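import Pool.Agent.Helper43.GP.Defs
import Pool.Agent.Helper14.GH.HW5
import Pool.Agent.Helper14.GP.OProj

/-!
Project GP (MP_b8862a_ag): the subgroups of finite index of the Mumford-Tate group contain the conjugates of the Hodge torus;
Tate tensors for the Mumford-Tate group.
-/

set_option linter.unusedSectionVars false

open Matrix Module

namespace MH

variable {n : Type*} [Fintype n] [DecidableEq n]
variable {w : ℤ} {Q : Matrix n n ℚ} {S : Finset ℤ} {P : ℤ → Matrix n n ℂ}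

/-- the conjugate of the cocharacter -/
theorem cochar_map (σ : ℂ ≃+* ℂ) (S : Finset ℤ) (P : ℤ → Matrix n n ℂ) (z : ℂ) :
    (cochar S P z).map σ = ∑ p ∈ S, (σ z) ^ p • (P p).map σ := by
  ext i j
  simp only [cochar, Matrix.map_apply, Matrix.sum_apply, Matrix.smul_apply, smul_eq_mul, map_sum, map_mul, map_zpow₀]

/-- the conjugate of a combination with integral coefficients -/
theorem sum_map_int (σ : ℂ ≃+* ℂ) (S : Finset ℤ) (P : ℤ → Matrix n n ℂ) (c : ℤ → ℤ) :
    (∑ p ∈ S, (c p : ℂ) • P p).map σ = ∑ p ∈ S, (c p : ℂ) • (P p).map σ := by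
  ext i j
  simp only [Matrix.map_apply, Matrix.sum_apply, Matrix.smul_apply, smul_eq_mul, map_sum, map_mul, map_intCast]

namespace IsHW

variable (H : IsHW w Q S P)
include H

/-- the conjugates of the Hodge decomposition -/
theorem idm_σ (σ : ℂ ≃+* ℂ) : Idm S (fun p => (P p).map σ) := by
  constructor
  · intro p q
    have h1 := congrArg (fun Y : Matrix n n ℂ => Y.map (σ : ℂ →+* ℂ)) (H.mul p q)
    rw [Matrix.map_mul] at h1
    refine Eq.trans h1 ?_
    show (if p = q then P p else 0).map σ = _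
    by_cases hpq : p = q
    · rw [if_pos hpq, if_pos hpq]
    · rw [if_neg hpq, if_neg hpq, Matrix.map_zero _ (map_zero _)]
  · have h1 := congrArg (fun Y : Matrix n n ℂ => Y.map (σ : ℂ →+* ℂ)) H.sum
    have h2 : (∑ p ∈ S, P p).map (σ : ℂ →+* ℂ) = ∑ p ∈ S, (P p).map σ := by
      ext i j
      simp [Matrix.sum_apply]
    rw [h2, Matrix.map_one _ (map_zero _) (map_one _)] at h1
    exact h1

theorem supp_σ (σ : ℂ ≃+* ℂ) (p : ℤ) (hp : p ∉ S) : (P p).map σ = 0 := by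
  rw [H.supp p hp, Matrix.map_zero _ (map_zero _)]

theorem orth_σ (σ : ℂ ≃+* ℂ) (p q : ℤ) (hpq : p + q ≠ w) : ((P p).map σ)ᵀ * toC Q * (P q).map σ = 0 := by
  have h1 := congrArg (fun Y : Matrix n n ℂ => Y.map (σ : ℂ →+* ℂ)) (H.orth p q hpq)
  rw [Matrix.map_mul, Matrix.map_mul, Matrix.map_zero _ (map_zero _)] at h1
  have h2 : (toC Q).map (σ : ℂ →+* ℂ) = toC Q := toC_aut σ Q
  rw [h2] at h1
  exact h1

theorem cochar_mulσ (σ : ℂ ≃+* ℂ) (z : ℂ) (hz : z ≠ 0) : (cochar S P z).map σ * (cochar S P z⁻¹).map σ = 1 := by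
  have h1 := congrArg (fun Y : Matrix n n ℂ => Y.map (σ : ℂ →+* ℂ)) (H.cochar_mul z hz)
  rw [Matrix.map_mul, Matrix.map_one _ (map_zero _) (map_one _)] at h1
  exact h1

/-- the elements of the conjugate of the Hodge torus -/
noncomputable def cochσ (σ : ℂ ≃+* ℂ) (z : ℂ) (hz : z ≠ 0) : GL n ℂ :=
  ⟨(cochar S P z).map σ, (cochar S P z⁻¹).map σ, H.cochar_mulσ σ z hz, by
    have h1 := H.cochar_mulσ σ z⁻¹ (inv_ne_zero hz)
    rwa [inv_inv] at h1⟩

theorem cochσ_mem (σ : ℂ ≃+* ℂ) (z : ℂ) (hz : z ≠ 0) : H.cochσ σ z hz ∈ MT S P :=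
  MT_aut (g := H.coch z hz) σ rfl (H.coch_mem z hz)

theorem cochar_pow (z : ℂ) : ∀ k : ℕ, cochar S P z ^ k = cochar S P (z ^ k) := by
  intro k
  have h1 : ∀ q ∈ S, cochar S P z ^ k * P q = cochar S P (z ^ k) * P q := by
    intro q _
    have a2 : ∀ y : ℂ, cochar S P y * P q = y ^ q • P q := fun y => H.sum_mul_P (fun p => y ^ p) q
    rw [a2]
    have : ∀ k : ℕ, cochar S P z ^ k * P q = (z ^ q) ^ k • P q := by
      intro k
      induction k with
      | zero => rw [pow_zero, pow_zero, one_mul, one_smul]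
      | succ k ih => rw [pow_succ, mul_assoc, a2, mul_smul_comm, ih, smul_smul, pow_succ, mul_comm]
    rw [this k, ← zpow_natCast (z ^ q) k, ← _root_.zpow_mul, mul_comm q, _root_.zpow_mul, zpow_natCast]
  exact H.ext_right h1

theorem cochσ_pow (σ : ℂ ≃+* ℂ) (z : ℂ) (hz : z ≠ 0) (k : ℕ) :
    H.cochσ σ z hz ^ k = H.cochσ σ (z ^ k) (pow_ne_zero k hz) := by
  apply Units.ext
  rw [Units.val_pow_eq_pow_val]
  show ((cochar S P z).map (σ : ℂ →+* ℂ)) ^ k = (cochar S P (z ^ k)).map (σ : ℂ →+* ℂ)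
  have h1 : ((cochar S P z).map (σ : ℂ →+* ℂ)) ^ k = (cochar S P z ^ k).map (σ : ℂ →+* ℂ) :=
    ((σ : ℂ →+* ℂ).mapMatrix.map_pow (cochar S P z) k).symm
  rw [h1, H.cochar_pow]

/-- subgroups of finite index of the Mumford-Tate group contain the conjugates of the Hodge torus -/
theorem cochσ_mem_of {Γ' : Subgroup (GL n ℂ)} (hi : Γ'.relIndex (MT S P) ≠ 0) (σ : ℂ ≃+* ℂ) (z : ℂ) (hz : z ≠ 0) :
    H.cochσ σ z hz ∈ Γ' := by
  set N : ℕ := (Γ'.relIndex (MT S P)).factorial with hN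
  have hN0 : 0 < N := Nat.factorial_pos _
  obtain ⟨y, hy⟩ := IsAlgClosed.exists_pow_nat_eq z hN0
  have hy0 : y ≠ 0 := by
    intro h0
    rw [h0, _root_.zero_pow hN0.ne'] at hy
    exact hz hy.symm
  have h1 := Subgroup.pow_mem_of_relIndex_ne_zero_of_dvd hi (H.cochσ_mem σ y hy0) (n := N)
    fun m hm hm' => Nat.dvd_factorial hm hm'
  rw [H.cochσ_pow] at h1
  have h2 : H.cochσ σ (y ^ N) (pow_ne_zero N hy0) = H.cochσ σ z hz := by
    apply Units.ext
    show (cochar S P (y ^ N)).map σ = (cochar S P z).map σ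
    rw [hy]
  rw [h2] at h1
  exact h1.1

/-- Tate tensors for the Mumford-Tate group are fixed by the conjugates of the Hodge torus -/
theorem tate_cochσ {a b : ℕ} {t : (Fin a ⊕ Fin b → n) → ℂ} (ht : IsTateTensor (MT S P) a b t) (σ : ℂ ≃+* ℂ)
    (z : ℂ) (hz : z ≠ 0) :
    actF (slot a b (∑ p ∈ S, z ^ p • (P p).map σ) (∑ p ∈ S, z⁻¹ ^ p • (P p).map σ)) t = t := by
  obtain ⟨Γ', _, hi, h1⟩ := ht
  have hz' : σ.symm z ≠ 0 := by
    rw [Ne, map_eq_zero]
    exact hz
  have h2 := h1 _ (H.cochσ_mem_of hi σ (σ.symm z) hz')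
  have e1 : ((H.cochσ σ (σ.symm z) hz' : GL n ℂ) : Matrix n n ℂ) = ∑ p ∈ S, z ^ p • (P p).map σ := by
    show (cochar S P (σ.symm z)).map σ = _
    rw [cochar_map, RingEquiv.apply_symm_apply]
  have e2 : (((H.cochσ σ (σ.symm z) hz')⁻¹ : GL n ℂ) : Matrix n n ℂ) = ∑ p ∈ S, z⁻¹ ^ p • (P p).map σ := by
    show (cochar S P (σ.symm z)⁻¹).map σ = _
    rw [cochar_map, map_inv₀, RingEquiv.apply_symm_apply]
  rw [e1, e2] at h2
  exact h2

/-- Tate tensors for the Mumford-Tate group are killed by the conjugates of `∑ p P p` -/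
theorem tate_kill {a b : ℕ} {t : (Fin a ⊕ Fin b → n) → ℂ} (ht : IsTateTensor (MT S P) a b t) (σ : ℂ ≃+* ℂ) :
    dL a b t ((∑ p ∈ S, (p : ℂ) • P p).map σ) = 0 := by
  have h1 := ((H.idm_σ σ).inv_iff a b t).1 fun z hz => H.tate_cochσ ht σ z hz
  rw [sum_map_int σ S P (fun p => p)]
  exact h1

/-- Tate tensors for the Mumford-Tate group are its fixed tensors -/
theorem tate_iff_fix {a b : ℕ} {t : (Fin a ⊕ Fin b → n) → ℂ} : IsTateTensor (MT S P) a b t ↔ MTfix S P a b t := by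
  constructor
  · intro ht g hg
    exact H.MT_of_kill (H.tate_kill ht) hg
  · intro ht
    refine ⟨MT S P, le_rfl, ?_, ht⟩
    rw [Subgroup.relIndex_self]
    exact one_ne_zero

/-- the span of the Hodge tensors -/
theorem tate_iff_span {a b : ℕ} {t : (Fin a ⊕ Fin b → n) → ℂ} : IsTateTensor (MT S P) a b t ↔
    t ∈ Submodule.span ℂ {x | ∃ s : (Fin a ⊕ Fin b → n) → ℚ, x = tC s ∧ IsHodgeTensor S P a b s} := by
  constructor
  · intro ht
    exact H.span_of_kill (H.tate_kill ht)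
  · intro ht
    rw [H.tate_iff_fix]
    intro g hg
    induction ht using Submodule.span_induction with
    | mem x hx =>
      obtain ⟨s, rfl, hs⟩ := hx
      exact hg a b s hs
    | zero => exact actF_zero _
    | add x y _ _ hx hy => rw [actF_add, hx, hy]
    | smul c x _ hx => rw [actF_smul, hx]

/-- the conjugate of the Hodge decomposition is a Hodge-Tate decomposition for the Mumford-Tate group -/
theorem isHTw_MT (σ : ℂ ≃+* ℂ) : IsHTw w Q S (MT S P) (fun p => (P p).map σ) where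
  mul := (H.idm_σ σ).mul
  supp := H.supp_σ σ
  sum := (H.idm_σ σ).sum
  orth := H.orth_σ σ
  ht := fun a b t ht z hz => H.tate_cochσ ht σ z hz

/-- the Lie algebra of the isometries in the Mumford-Tate group -/
theorem mem_LH_iff {X : Matrix n n ℂ} : X ∈ LH Q S P ↔ X ∈ LG (MT S P) ∧ Xᵀ * toC Q + toC Q * X = 0 := by
  constructor
  · intro hX
    exact ⟨fun a b t ht => H.LH_of_kill (H.tate_kill ht) hX, hX.1⟩
  · rintro ⟨h1, h2⟩
    refine ⟨h2, fun a b t ht => h1 a b (tC t) ?_⟩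
    rw [H.tate_iff_fix]
    intro g hg
    exact hg a b t ht

theorem LH_le_LG : LH Q S P ≤ LG (MT S P) := fun _ hX => (H.mem_LH_iff.1 hX).1

end IsHW

end MH
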