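import Pool.Agent.Helper14.GP.Mt1
import Pool.Agent.Helper71.OW.MTs

/-!
Project GP (MP_b8862a_ag): the Mumford-Tate group satisfies the conditions on the `ℓ-adic` side.
-/

set_option linter.unusedSectionVars false

open Matrix Module

namespace MH

variable {n : Type*} [Fintype n] [DecidableEq n]
variable {w : ℤ} {Q : Matrix n n ℚ} {S : Finset ℤ} {P : ℤ → Matrix n n ℂ}

/-- powers of two are different -/
theorem two_zpow_inj : Function.Injective fun p : ℤ => (2 : ℂ) ^ p := by
  intro a b hab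
  have h1 := congrArg (fun z : ℂ => ‖z‖) hab
  simp only [norm_zpow, Complex.norm_ofNat] at h1
  exact zpow_right_injective₀ (by norm_num) (by norm_num) h1

namespace IsHW

variable (H : IsHW w Q S P)
include H

/-- commuting with the conjugate of an element of the Hodge torus -/
theorem comm_hwσ {T : Matrix n n ℂ} (σ : ℂ ≃+* ℂ) (hT : (cochar S P 2).map σ * T = T * (cochar S P 2).map σ) :
    T * (hw w S P).map σ = (hw w S P).map σ * T := by
  have e5 : ((cochar S P 2).map σ).map (σ.symm : ℂ →+* ℂ) = cochar S P 2 := by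
    ext i j
    simp
  have h1 := congrArg (fun Y : Matrix n n ℂ => Y.map (σ.symm : ℂ →+* ℂ)) hT
  rw [Matrix.map_mul, Matrix.map_mul, e5] at h1
  have h2 : T.map σ.symm * hw w S P = hw w S P * T.map σ.symm := by
    have h3 : ∀ p, T.map (σ.symm : ℂ →+* ℂ) * P p = P p * T.map (σ.symm : ℂ →+* ℂ) := fun p =>
      H.comm_P (c := fun p => (2 : ℂ) ^ p) two_zpow_inj h1.symm p
    show T.map (σ.symm : ℂ →+* ℂ) * hw w S P = hw w S P * T.map (σ.symm : ℂ →+* ℂ)
    unfold hw
    rw [Finset.sum_mul, Finset.mul_sum]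
    refine Finset.sum_congr rfl fun p _ => ?_
    rw [smul_mul_assoc, mul_smul_comm, h3]
  have h4 := congrArg (fun Y : Matrix n n ℂ => Y.map (σ : ℂ →+* ℂ)) h2
  rw [Matrix.map_mul, Matrix.map_mul] at h4
  have e6 : (T.map σ.symm).map (σ : ℂ →+* ℂ) = T := by
    ext i j
    simp
  rw [e6] at h4
  exact h4

/-- what commutes with a subgroup of finite index of the Mumford-Tate group is in the span of the endomorphisms -/
theorem cent_MT {Γ' : Subgroup (GL n ℂ)} (hi : Γ'.relIndex (MT S P) ≠ 0) {T : Matrix n n ℂ}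
    (hT : ∀ g ∈ Γ', (g : Matrix n n ℂ) * T = T * (g : Matrix n n ℂ)) : T ∈ EC P :=
  H.descent fun σ => H.comm_hwσ σ (hT _ (H.cochσ_mem_of hi σ 2 two_ne_zero))

/-- semi-invariants of the conjugates of an element of the Hodge torus are semi-invariants for the conjugates of `hw` -/
theorem SIh_of_semi {T : Matrix n n ℂ}
    (hT : ∀ σ : ℂ ≃+* ℂ, ∃ c : ℂ, (cochar S P 2).map σ * T = c • (T * (cochar S P 2).map σ)) : SIh w S P T := by
  intro σ
  -- transport by the inverse of `σ`
  set T' := T.map σ.symm with hT'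
  have hTT' : T = T'.map σ := by
    ext i j
    simp [hT']
  have h20 : (2 : ℂ) ≠ 0 := two_ne_zero
  have hc : ∃ c : ℂ, cochar S P 2 * T' = c • (T' * cochar S P 2) := by
    obtain ⟨c, hc⟩ := hT σ
    refine ⟨σ.symm c, ?_⟩
    have e4 := congrArg (fun Y : Matrix n n ℂ => Y.map (σ.symm : ℂ →+* ℂ)) hc
    rw [Matrix.map_mul] at e4
    have e5 : ((cochar S P 2).map σ).map (σ.symm : ℂ →+* ℂ) = cochar S P 2 := by
      ext i j
      simp
    have e6 : (c • (T * (cochar S P 2).map σ)).map (σ.symm : ℂ →+* ℂ) =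
        σ.symm c • ((T * (cochar S P 2).map σ).map (σ.symm : ℂ →+* ℂ)) := by
      ext i j
      exact map_mul σ.symm c _
    rw [e5, e6, Matrix.map_mul, e5] at e4
    exact e4
  obtain ⟨c, hc⟩ := hc
  by_cases hT0 : T' = 0
  · refine ⟨0, ?_⟩
    rw [hTT', hT0, Matrix.map_zero _ (map_zero _)]
    simp
  have hsum : T' = ∑ p ∈ S, ∑ q ∈ S, P p * T' * P q := by
    have h1 : T' = (∑ p ∈ S, P p) * T' * ∑ q ∈ S, P q := by rw [H.sum, one_mul, mul_one]
    conv_lhs => rw [h1]
    rw [Finset.sum_mul, Finset.sum_mul]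
    exact Finset.sum_congr rfl fun p _ => by rw [Finset.mul_sum]
  have key : ∀ p q, P p * T' * P q ≠ 0 → (2 : ℂ) ^ (p - q) = c := by
    intro p q hpq
    have a1 : P p * cochar S P 2 = (2 : ℂ) ^ p • P p := H.P_mul_sum (fun p => (2 : ℂ) ^ p) p
    have a2 : cochar S P 2 * P q = (2 : ℂ) ^ q • P q := H.sum_mul_P (fun p => (2 : ℂ) ^ p) q
    have b1 : P p * (cochar S P 2 * T') * P q = (2 : ℂ) ^ p • (P p * T' * P q) := by
      rw [← mul_assoc, a1, smul_mul_assoc, smul_mul_assoc]
    have b2 : P p * (c • (T' * cochar S P 2)) * P q = (c * 2 ^ q) • (P p * T' * P q) := by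
      rw [mul_smul_comm, smul_mul_assoc, ← mul_assoc (P p), mul_assoc (P p * T'), a2, mul_smul_comm, smul_smul]
    have e1 : (2 : ℂ) ^ p • (P p * T' * P q) = (c * 2 ^ q) • (P p * T' * P q) := by rw [← b1, ← b2, hc]
    have e2 : ((2 : ℂ) ^ p - c * 2 ^ q) • (P p * T' * P q) = 0 := by
      rw [sub_smul, e1, sub_self]
    have e3 := (smul_eq_zero.1 e2).resolve_right hpq
    rw [zpow_sub₀ h20, div_eq_iff (zpow_ne_zero _ h20)]
    linear_combination e3
  have hex : ∃ p q, P p * T' * P q ≠ 0 := by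
    by_contra hcon
    push Not at hcon
    apply hT0
    rw [hsum]
    exact Finset.sum_eq_zero fun p _ => Finset.sum_eq_zero fun q _ => hcon p q
  obtain ⟨p0, q0, h0⟩ := hex
  have hh : hw w S P * T' - T' * hw w S P = ((2 * (p0 - q0) : ℤ) : ℂ) • T' := by
    have e1 : hw w S P * T' - T' * hw w S P =
        ∑ p ∈ S, ∑ q ∈ S, ((2 * (p - q) : ℤ) : ℂ) • (P p * T' * P q) := by
      have e2 : hw w S P * T' = ∑ p ∈ S, ∑ q ∈ S, ((2 * p - w : ℤ) : ℂ) • (P p * T' * P q) := by
        have e3 : hw w S P * T' = hw w S P * T' * ∑ q ∈ S, P q := by rw [H.sum, mul_one]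
        rw [e3]
        unfold hw
        rw [Finset.sum_mul, Finset.sum_mul]
        refine Finset.sum_congr rfl fun p _ => ?_
        rw [Finset.mul_sum]
        refine Finset.sum_congr rfl fun q _ => ?_
        rw [smul_mul_assoc, smul_mul_assoc]
      have e4 : T' * hw w S P = ∑ p ∈ S, ∑ q ∈ S, ((2 * q - w : ℤ) : ℂ) • (P p * T' * P q) := by
        have e3 : T' * hw w S P = (∑ q ∈ S, P q) * (T' * hw w S P) := by rw [H.sum, one_mul]
        rw [e3]
        unfold hw
        rw [Finset.sum_mul]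
        refine Finset.sum_congr rfl fun p _ => ?_
        rw [Finset.mul_sum, Finset.mul_sum]
        refine Finset.sum_congr rfl fun q _ => ?_
        rw [mul_smul_comm, mul_smul_comm, mul_assoc]
      rw [e2, e4, ← Finset.sum_sub_distrib]
      refine Finset.sum_congr rfl fun p _ => ?_
      rw [← Finset.sum_sub_distrib]
      refine Finset.sum_congr rfl fun q _ => ?_
      rw [← sub_smul]
      congr 1
      push_cast
      ring
    rw [e1]
    conv_rhs => rw [hsum, Finset.smul_sum]
    refine Finset.sum_congr rfl fun p _ => ?_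
    rw [Finset.smul_sum]
    refine Finset.sum_congr rfl fun q _ => ?_
    by_cases hpq : P p * T' * P q = 0
    · rw [hpq, smul_zero, smul_zero]
    · congr 2
      rw [two_zpow_inj ((key p q hpq).trans (key p0 q0 h0).symm)]
  refine ⟨σ ((2 * (p0 - q0) : ℤ) : ℂ), ?_⟩
  have e7 := congrArg (fun Y : Matrix n n ℂ => Y.map (σ : ℂ →+* ℂ)) hh
  rw [Matrix.map_sub _ (map_sub _), Matrix.map_mul, Matrix.map_mul] at e7
  have e8 : (((2 * (p0 - q0) : ℤ) : ℂ) • T').map (σ : ℂ →+* ℂ) = σ ((2 * (p0 - q0) : ℤ) : ℂ) • T'.map σ := by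
    ext i j
    simp
  rw [e8] at e7
  rw [hTT']
  exact e7

/-- what spans a line stable under a subgroup of finite index of the Mumford-Tate group spans a line stable under it -/
theorem semi_MT {Γ' : Subgroup (GL n ℂ)} (hi : Γ'.relIndex (MT S P) ≠ 0) {T : Matrix n n ℂ}
    (hT : ∀ g ∈ Γ', ∃ c : ℂ, (g : Matrix n n ℂ) * T = c • (T * (g : Matrix n n ℂ))) : SI S P T :=
  H.SIh_MT (H.SIh_of_semi fun σ => hT _ (H.cochσ_mem_of hi σ 2 two_ne_zero))

/-- polynomials in an element of the Hodge torus -/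
theorem aeval_coch (f : Polynomial ℂ) : Polynomial.aeval (cochar S P 2) f = ∑ p ∈ S, (f.eval ((2 : ℂ) ^ p)) • P p := by
  refine H.ext_right fun q _ => ?_
  rw [H.sum_mul_P (fun p => f.eval ((2 : ℂ) ^ p))]
  have a2 : cochar S P 2 * P q = (2 : ℂ) ^ q • P q := H.sum_mul_P (fun p => (2 : ℂ) ^ p) q
  induction f using Polynomial.induction_on' with
  | add f g hf hg => rw [map_add, add_mul, hf, hg, Polynomial.eval_add, add_smul]
  | monomial k c =>
    rw [Polynomial.aeval_monomial, Polynomial.eval_monomial]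
    have h1 : ∀ k : ℕ, cochar S P 2 ^ k * P q = ((2 : ℂ) ^ q) ^ k • P q := by
      intro k
      induction k with
      | zero => rw [pow_zero, pow_zero, one_mul, one_smul]
      | succ k ih => rw [pow_succ, mul_assoc, a2, mul_smul_comm, ih, smul_smul, pow_succ, mul_comm]
    rw [mul_assoc, h1, mul_smul_comm, Algebra.algebraMap_eq_smul_one, smul_mul_assoc, one_mul, smul_smul, mul_comm]

/-- the projections are polynomials in an element of the Hodge torus -/
theorem exists_poly (q : ℤ) : ∃ f : Polynomial ℂ, Polynomial.aeval (cochar S P 2) f = P q := by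
  by_cases hq : q ∈ S
  · refine ⟨Lagrange.basis S (fun p : ℤ => (2 : ℂ) ^ p) q, ?_⟩
    rw [H.aeval_coch, Finset.sum_eq_single q]
    · rw [Lagrange.eval_basis_self (two_zpow_inj.injOn) hq, one_smul]
    · intro p hp hpq
      rw [Lagrange.eval_basis_of_ne (Ne.symm hpq) hp, zero_smul]
    · intro h
      exact absurd hq h
  · exact ⟨0, by rw [map_zero, H.supp q hq]⟩

end IsHW

/-- a subspace stable under a matrix is stable under the polynomials in it -/
theorem stab_aeval {W : Submodule ℂ (n → ℂ)} {A : Matrix n n ℂ} (h : ∀ v ∈ W, A *ᵥ v ∈ W) (f : Polynomial ℂ) :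
    ∀ v ∈ W, (Polynomial.aeval A f) *ᵥ v ∈ W := by
  induction f using Polynomial.induction_on' with
  | add f g hf hg =>
    intro v hv
    rw [map_add, Matrix.add_mulVec]
    exact W.add_mem (hf v hv) (hg v hv)
  | monomial k c =>
    intro v hv
    rw [Polynomial.aeval_monomial, Algebra.algebraMap_eq_smul_one, smul_mul_assoc, one_mul, Matrix.smul_mulVec]
    apply W.smul_mem
    induction k with
    | zero => rw [pow_zero, Matrix.one_mulVec]; exact hv
    | succ k ih =>
      rw [pow_succ', ← Matrix.mulVec_mulVec]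
      exact h _ ih

end MH
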