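import Pool.Agent.Helper14.GP.Mt2

/-!
Project GP (MP_b8862a_ag): subgroups of finite index of the Mumford-Tate group are semisimple; the Mumford-Tate group
satisfies the conditions on the `ℓ-adic` side.
-/

set_option linter.unusedSectionVars false

open Matrix Module

namespace MH

variable {n : Type*} [Fintype n] [DecidableEq n]
variable {w : ℤ} {Q : Matrix n n ℚ} {S : Finset ℤ} {P : ℤ → Matrix n n ℂ}

/-- polynomials in the conjugate of a matrix -/
theorem aeval_map_σ (σ : ℂ ≃+* ℂ) (A : Matrix n n ℂ) (f : Polynomial ℂ) :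
    (Polynomial.aeval A f).map σ = Polynomial.aeval (A.map σ) (f.map (σ : ℂ →+* ℂ)) := by
  induction f using Polynomial.induction_on' with
  | add f g hf hg =>
    rw [map_add, Polynomial.map_add, map_add, ← hf, ← hg]
    exact Matrix.map_add _ (map_add σ) _ _
  | monomial k c =>
    rw [Polynomial.aeval_monomial, Polynomial.map_monomial, Polynomial.aeval_monomial,
      Algebra.algebraMap_eq_smul_one, Algebra.algebraMap_eq_smul_one, smul_mul_assoc, smul_mul_assoc, one_mul, one_mul]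
    have h1 : (A ^ k).map (σ : ℂ →+* ℂ) = (A.map (σ : ℂ →+* ℂ)) ^ k := (σ : ℂ →+* ℂ).mapMatrix.map_pow A k
    have h2 : (A.map σ) ^ k = (A ^ k).map (σ : ℂ →+* ℂ) := h1.symm
    rw [h2]
    ext i j
    exact map_mul σ c _

namespace IsHW

variable (H : IsHW w Q S P)
include H

/-- a subspace stable under a conjugate of an element of the Hodge torus is stable under the projections -/
theorem stab_P {W : Submodule ℂ (n → ℂ)} (σ : ℂ ≃+* ℂ) (h : ∀ v ∈ W, (cochar S P 2).map σ *ᵥ v ∈ W) (q : ℤ) :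
    ∀ v ∈ W, (P q).map σ *ᵥ v ∈ W := by
  obtain ⟨f, hf⟩ := H.exists_poly q
  rw [← hf, aeval_map_σ]
  exact stab_aeval h _

theorem stab_sum {W : Submodule ℂ (n → ℂ)} (σ : ℂ ≃+* ℂ) (h : ∀ v ∈ W, (cochar S P 2).map σ *ᵥ v ∈ W) (c : ℤ → ℂ) :
    ∀ v ∈ W, (∑ p ∈ S, c p • P p).map σ *ᵥ v ∈ W := by
  intro v hv
  have e1 : (∑ p ∈ S, c p • P p).map σ = ∑ p ∈ S, σ (c p) • (P p).map σ := by
    ext i j
    simp only [Matrix.map_apply, Matrix.sum_apply, Matrix.smul_apply, smul_eq_mul, map_sum, map_mul]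
  rw [e1, Matrix.sum_mulVec]
  refine W.sum_mem fun p _ => ?_
  rw [Matrix.smul_mulVec]
  exact W.smul_mem _ (H.stab_P σ h p v hv)

/-- an invariant subspace has an invariant complement -/
theorem ss_MT {Γ' : Subgroup (GL n ℂ)} (hi : Γ'.relIndex (MT S P) ≠ 0) (W : Submodule ℂ (n → ℂ))
    (hW : ∀ g ∈ Γ', ∀ w ∈ W, (g : Matrix n n ℂ) *ᵥ w ∈ W) :
    ∃ W' : Submodule ℂ (n → ℂ), (∀ g ∈ MT S P, ∀ w ∈ W', (g : Matrix n n ℂ) *ᵥ w ∈ W') ∧ IsCompl W W' := by
  obtain ⟨B, Bi, Qi, h1, h2, h3, h4, hM⟩ := H.exists_basis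
  have hco : ∀ σ : ℂ ≃+* ℂ, ∀ v ∈ W, (cochar S P 2).map σ *ᵥ v ∈ W := fun σ v hv =>
    hW _ (H.cochσ_mem_of hi σ 2 two_ne_zero) v hv
  have hh : ∀ σ : ℂ ≃+* ℂ, ∀ v ∈ W, (hw w S P).map σ *ᵥ v ∈ W := fun σ =>
    H.stab_sum σ (hco σ) (fun p => ((2 * p - w : ℤ) : ℂ))
  have hC0 : ∀ v ∈ W, C0 S P *ᵥ v ∈ W := by
    have h5 := H.stab_sum (RingEquiv.refl ℂ) (hco _) (fun p => (-1 : ℂ) ^ p)
    have h6 : (∑ p ∈ S, ((-1 : ℂ) ^ p) • P p).map (RingEquiv.refl ℂ) = C0 S P := by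
      ext i j
      rfl
    rw [h6] at h5
    exact h5
  -- the orthogonal projection
  obtain ⟨e, he, hee, he1, he2⟩ := exists_oproj (W.map (Matrix.toLin' B))
  obtain ⟨T, hT⟩ : ∃ T : Matrix n n ℂ, T = Bi * e * B := ⟨_, rfl⟩
  have hTT : T * T = T := by
    calc T * T = Bi * e * (B * Bi) * e * B := by simp only [hT, mul_assoc]
      _ = Bi * (e * e) * B := by rw [h1]; simp only [mul_assoc, mul_one, one_mul]
      _ = T := by rw [hee, ← hT]
  have hT1 : ∀ v ∈ W, T *ᵥ v = v := by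
    intro v hv
    have h5 : e *ᵥ (B *ᵥ v) = B *ᵥ v := he1 _ ⟨v, hv, Matrix.toLin'_apply B v⟩
    rw [hT, ← Matrix.mulVec_mulVec, ← Matrix.mulVec_mulVec, h5, Matrix.mulVec_mulVec, h2, Matrix.one_mulVec]
  have hT2 : ∀ v, T *ᵥ v ∈ W := by
    intro v
    obtain ⟨u, hu, hu2⟩ := he2 (B *ᵥ v)
    rw [Matrix.toLin'_apply] at hu2
    rw [hT, ← Matrix.mulVec_mulVec, ← Matrix.mulVec_mulVec, ← hu2, Matrix.mulVec_mulVec, h2, Matrix.one_mulVec]
    exact hu
  -- stable means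
  have hst : ∀ X : Matrix n n ℂ, (∀ v ∈ W, X *ᵥ v ∈ W) → T * X * T = X * T := by
    intro X hX
    apply Matrix.toLin'.injective
    apply LinearMap.ext
    intro v
    have e1 : (T * X * T) *ᵥ v = T *ᵥ (X *ᵥ (T *ᵥ v)) := by
      rw [Matrix.mulVec_mulVec, Matrix.mulVec_mulVec, mul_assoc]
    have e2 : (X * T) *ᵥ v = X *ᵥ (T *ᵥ v) := by rw [Matrix.mulVec_mulVec]
    rw [Matrix.toLin'_apply, Matrix.toLin'_apply, e1, e2]
    exact hT1 _ (hX _ (hT2 v))
  have hTs : (Bi * Biᴴ) * Tᴴ * Mw w Q S P = T := by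
    have h5 : Biᴴ * Bᴴ = 1 := by
      rw [← Matrix.conjTranspose_mul, h1, Matrix.conjTranspose_one]
    calc (Bi * Biᴴ) * Tᴴ * Mw w Q S P = Bi * (Biᴴ * Bᴴ) * eᴴ * (Biᴴ * Bᴴ) * B := by
          rw [hM, hT, Matrix.conjTranspose_mul, Matrix.conjTranspose_mul]
          simp only [mul_assoc]
      _ = T := by rw [h5, he, mul_one, mul_one, ← hT]
  -- the projection commutes with the conjugates of `hw`
  have hcomm : ∀ σ : ℂ ≃+* ℂ, T * (hw w S P).map σ = (hw w S P).map σ * T := by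
    intro σ
    set x := (hw w S P).map σ with hx
    have hxL : x ∈ LH Q S P := LH_aut σ H.hw_mem
    have a1 : T * x * T = x * T := hst x (hh σ)
    have a2 : T * ((Bi * Biᴴ) * xᴴ * Mw w Q S P) * T = (Bi * Biᴴ) * xᴴ * Mw w Q S P * T := by
      apply hst
      intro v hv
      rw [H.st_LH h1 h2 hM hxL, Matrix.neg_mulVec]
      apply W.neg_mem
      rw [← Matrix.mulVec_mulVec, ← Matrix.mulVec_mulVec]
      apply hC0
      obtain ⟨κ, hκ⟩ := exists_cc
      have e1 : x.map (starRingEnd ℂ) = (hw w S P).map (σ.trans κ) := by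
        ext i j
        simp [hx, hκ]
      rw [e1]
      exact hh _ _ (hC0 v hv)
    have a3 := congrArg (fun Y : Matrix n n ℂ => (Bi * Biᴴ) * Yᴴ * Mw w Q S P) a2
    rw [st_mul h1 h2 hM (T * ((Bi * Biᴴ) * xᴴ * Mw w Q S P)) T, st_mul h1 h2 hM T ((Bi * Biᴴ) * xᴴ * Mw w Q S P),
      st_mul h1 h2 hM ((Bi * Biᴴ) * xᴴ * Mw w Q S P) T, hTs] at a3
    have a4 : (Bi * Biᴴ) * ((Bi * Biᴴ) * xᴴ * Mw w Q S P)ᴴ * Mw w Q S P = x := by
      have b1 : ((Bi * Biᴴ) * xᴴ * Mw w Q S P)ᴴ = Mw w Q S P * x * (Bi * Biᴴ) := by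
        rw [Matrix.conjTranspose_mul, Matrix.conjTranspose_mul, Matrix.conjTranspose_conjTranspose, H.M_herm,
          Matrix.conjTranspose_mul, Matrix.conjTranspose_conjTranspose]
        simp only [mul_assoc]
      rw [b1]
      calc Bi * Biᴴ * (Mw w Q S P * x * (Bi * Biᴴ)) * Mw w Q S P
          = ((Bi * Biᴴ) * Mw w Q S P) * x * ((Bi * Biᴴ) * Mw w Q S P) := by simp only [mul_assoc]
        _ = x := by rw [Mi_mul h1 h2 hM, one_mul, mul_one]
    rw [a4, ← mul_assoc] at a3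
    exact a3.symm.trans a1
  have hTE : T ∈ EC P := H.descent hcomm
  refine ⟨LinearMap.ker (Matrix.toLin' T), ?_, ?_⟩
  · intro g hg v hv
    rw [LinearMap.mem_ker, Matrix.toLin'_apply] at hv ⊢
    rw [Matrix.mulVec_mulVec, ← H.MT_EC hg hTE, ← Matrix.mulVec_mulVec, hv, Matrix.mulVec_zero]
  · have h5 : IsIdempotentElem (Matrix.toLin' T) := by
      show Matrix.toLin' T ∘ₗ Matrix.toLin' T = Matrix.toLin' T
      rw [← Matrix.toLin'_mul, hTT]
    have h6 : LinearMap.range (Matrix.toLin' T) = W := by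
      ext v
      constructor
      · rintro ⟨u, rfl⟩
        exact hT2 u
      · intro hv
        exact ⟨v, by rw [Matrix.toLin'_apply, hT1 v hv]⟩
    rw [← h6]
    exact LinearMap.IsIdempotentElem.isCompl h5

/-- the Mumford-Tate group satisfies the conditions on the `ℓ-adic` side -/
theorem isGalU_MT : IsGalU w Q S P (MT S P) where
  sim := by
    intro g hg
    rcases isEmpty_or_nonempty n with hn | hn
    · exact ⟨1, by ext i; exact (hn.false i).elim⟩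
    · obtain ⟨c, _, hc⟩ := H.MT_sim hg
      exact ⟨c, hc⟩
  ss := by
    intro Γ' hle hi W hW
    obtain ⟨W', h1, h2⟩ := H.ss_MT hi W hW
    exact ⟨W', fun g hg => h1 g (hle hg), h2⟩
  comm := ⟨MT S P, le_rfl, by rw [Subgroup.relIndex_self]; exact one_ne_zero, fun g hg x hx => H.MT_EC hg hx⟩
  cent := fun Γ' _ hi T hT => H.cent_MT hi hT
  semi := fun Γ' _ hi T hT => H.semi_MT hi hT

end IsHW

end MH
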