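import Pool.Agent.Helper14.GP.Mt3
import Pool.Agent.Helper98.GP.Cpy
import Pool.Agent.Helper2.MON.Use
import Pool.Agent.Helper14.GH.HW10

/-!
Project GP (MP_b8862a_ag): the Lie algebra of the Mumford-Tate group, with the scalars, is the Lie algebra of its isometries,
with the scalars.
-/

set_option linter.unusedSectionVars false

open Matrix Module GH

namespace MH

variable {n : Type*} [Fintype n] [DecidableEq n]
variable {w : ℤ} {Q : Matrix n n ℚ} {S : Finset ℤ} {P : ℤ → Matrix n n ℂ}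

namespace IsHW

variable (H : IsHW w Q S P)
include H

theorem cochar_sim14 {z : ℂ} (hz : z ≠ 0) : (cochar S P z)ᵀ * toC Q * cochar S P z = z ^ w • toC Q := by
  unfold cochar
  rw [H.sum_transpose_mul_Q (fun p => z ^ p), mul_assoc, H.sum_mul_sum (fun p => z ^ (w - p)) (fun p => z ^ p)]
  have h1 : ∀ p : ℤ, z ^ (w - p) * z ^ p = z ^ w := by
    intro p
    rw [← zpow_add₀ hz]
    congr 1
    ring
  simp_rw [h1]
  rw [← Finset.smul_sum, H.sum, mul_smul_comm, mul_one]

/-- in weight zero the polarisation is a Hodge tensor -/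
theorem hodge_t02 (h0 : w = 0) : IsHodgeTensor S P 0 2 (fun i => Q (i (Sum.inr 0)) (i (Sum.inr 1))) := by
  intro z hz
  have e1 : tC (fun i : Fin 0 ⊕ Fin 2 → n => Q (i (Sum.inr 0)) (i (Sum.inr 1))) = t02 (toC Q) := rfl
  rw [e1, actF_t02]
  simp only [slot, Sum.elim_inr, Matrix.transpose_transpose]
  rw [H.cochar_sim14 (inv_ne_zero hz), h0, zpow_zero, one_smul]

/-- in weight different from zero the scalars kill the Hodge tensors -/
theorem one_mem_LG (h0 : w ≠ 0) : (1 : Matrix n n ℂ) ∈ LG (MT S P) := by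
  intro a b t ht
  have h1 := H.tate_iff_span.1 ht
  clear ht
  induction h1 using Submodule.span_induction with
  | mem x hx =>
    obtain ⟨s, rfl, hs⟩ := hx
    have h2 := H.kill_one hs
    refine (smul_eq_zero.1 h2).resolve_left ?_
    exact_mod_cast h0
  | zero => rw [dL_apply, dact_zero]
  | add x y _ _ hx hy => rw [dL_apply, dact_add_right, ← dL_apply, ← dL_apply, hx, hy, add_zero]
  | smul c x _ hx => rw [dL_apply, dact_smul_right, ← dL_apply, hx, smul_zero]

theorem LG_le_L1 : LG (MT S P) ≤ L1 (LH Q S P) := by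
  intro X hX
  by_cases h0 : w = 0
  · have h1 : IsTateTensor (MT S P) 0 2 (t02 (toC Q)) := by
      rw [H.tate_iff_fix]
      intro g hg
      exact hg 0 2 _ (H.hodge_t02 h0)
    have h2 := hX 0 2 _ h1
    rw [dL_t02] at h2
    have h3 : t02 (-(Xᵀ * toC Q + toC Q * X)) = t02 (0 : Matrix n n ℂ) := by
      rw [h2]
      rfl
    exact le_L1 (H.mem_LH_iff.2 ⟨hX, neg_eq_zero.mp (t02_inj h3)⟩)
  · obtain ⟨c, hc⟩ := IsGalU.LG_sim H H.isGalU_MT hX
    refine mem_L1.2 ⟨X - (c / 2) • 1, H.mem_LH_iff.2 ⟨?_, ?_⟩, c / 2, by rw [sub_add_cancel]⟩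
    · exact Submodule.sub_mem _ hX (Submodule.smul_mem _ _ (H.one_mem_LG h0))
    · rw [Matrix.transpose_sub, Matrix.transpose_smul, Matrix.transpose_one, sub_mul, mul_sub, smul_mul_assoc, one_mul,
        mul_smul_comm, mul_one]
      have e1 : Xᵀ * toC Q - (c / 2) • toC Q + (toC Q * X - (c / 2) • toC Q) =
          (Xᵀ * toC Q + toC Q * X) - ((c / 2) • toC Q + (c / 2) • toC Q) := by abel
      rw [e1, hc, ← add_smul, add_halves, sub_self]

theorem L1_LG : L1 (LG (MT S P)) = L1 (LH Q S P) := by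
  apply le_antisymm
  · intro X hX
    obtain ⟨y, hy, c, rfl⟩ := mem_L1.1 hX
    exact Submodule.add_mem _ (H.LG_le_L1 hy) (Submodule.smul_mem _ _ one_L1)
  · intro X hX
    obtain ⟨y, hy, c, rfl⟩ := mem_L1.1 hX
    exact Submodule.add_mem _ (le_L1 (H.LH_le_LG hy)) (Submodule.smul_mem _ _ one_L1)

/-- the compression of the Lie algebra of the Mumford-Tate group to a block -/
theorem cpS_LG_MT {k : Type*} [Fintype k] [DecidableEq k] {W : Matrix n k ℂ} {V : Matrix k n ℂ} (hVW : V * W = 1) :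
    cpS W V (LG (MT S P)) = cpL W V (L1 (LH Q S P)) := by
  rw [← H.L1_LG, ← L1_cpL hVW]
  rfl

end IsHW

end MH
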