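import Pool.Agent.Helper14.GP.Mt4

/-!
Project GP (MP_b8862a_ag): full type of a block all of whose conjugates satisfy the condition.
-/

set_option linter.unusedSectionVars false

open Matrix Module GH

namespace GH

open MH

theorem TyN.conj {k k' : Type*} [Fintype k] [DecidableEq k] [Fintype k'] [DecidableEq k']
    {L : Submodule ℂ (Matrix k k ℂ)} {a : Matrix k k' ℂ} {b : Matrix k' k ℂ} (hab : a * b = 1) (hba : b * a = 1)
    (h : TyN L) : TyN (cpL a b L) := by
  have hcard : Fintype.card k = Fintype.card k' := by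
    have h1 : (a * b).trace = (b * a).trace := Matrix.trace_mul_comm _ _
    rw [hab, hba, Matrix.trace_one, Matrix.trace_one] at h1
    exact_mod_cast h1
  refine ⟨(h.tyF.conj hab hba).1, ?_⟩
  rcases h.2 with h1 | h1
  · left
    intro x hx
    refine ⟨a * x * b, h1 _ ?_, ?_⟩
    · rw [Matrix.mul_assoc, Matrix.trace_mul_comm, Matrix.mul_assoc, hba, Matrix.mul_one, hx]
    · calc x = (b * a) * x * (b * a) := by rw [hba, Matrix.one_mul, Matrix.mul_one]
        _ = b * (a * x * b) * a := by simp only [Matrix.mul_assoc]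
  · right
    rw [← hcard]
    exact h1

theorem TyN.aut {k : Type*} [Fintype k] [DecidableEq k] {A A' : Submodule ℂ (Matrix k k ℂ)} (σ : ℂ ≃+* ℂ)
    (h1 : ∀ y ∈ A, y.map σ ∈ A') (h2 : ∀ y ∈ A', y.map σ.symm ∈ A) (h : TyN A) : TyN A' := by
  refine ⟨(h.tyF.aut σ h1 h2).1, ?_⟩
  rcases h.2 with h3 | h3
  · left
    intro x hx
    rw [← map_symmσ σ x]
    refine h1 _ (h3 _ ?_)
    have h4 : (x.map σ.symm).trace = σ.symm x.trace := by
      simp [Matrix.trace, map_sum]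
    rw [h4, hx, map_zero]
  · exact Or.inr h3

end GH

namespace MH

variable {n : Type*} [Fintype n] [DecidableEq n]
variable {m w : ℤ} {Q : Matrix n n ℚ} {S : Finset ℤ} {P : ℤ → Matrix n n ℂ}

/-- The block is of full type, with the size that the pair lemma needs. -/
def TyBN (Q : Matrix n n ℚ) (S : Finset ℤ) (P : ℤ → Matrix n n ℂ) (e : Matrix n n ℂ) : Prop :=
  ∃ (k : ℕ) (w : Matrix n (Fin k) ℂ) (v : Matrix (Fin k) n ℂ), v * w = 1 ∧ w * v = e ∧
    TyN (cpL w v (L1 (LH Q S P)))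

theorem TyBN.tyB {e : Matrix n n ℂ} (h : TyBN Q S P e) : TyB Q S P e := by
  obtain ⟨k, w, v, h3, h4, h5⟩ := h
  exact ⟨k, w, v, h3, h4, h5.tyF⟩

theorem TyBN.any {e : Matrix n n ℂ} (h : TyBN Q S P e) {r : Type*} [Fintype r] [DecidableEq r]
    {w' : Matrix n r ℂ} {v' : Matrix r n ℂ} (h1 : v' * w' = 1) (h2 : w' * v' = e) :
    TyN (cpL w' v' (L1 (LH Q S P))) := by
  obtain ⟨k, w, v, h3, h4, h5⟩ := h
  have ew' : e * w' = w' := by rw [← h2, Matrix.mul_assoc, h1, Matrix.mul_one]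
  have ve' : v' * e = v' := by rw [← h2, ← Matrix.mul_assoc, h1, Matrix.one_mul]
  have ew : e * w = w := by rw [← h4, Matrix.mul_assoc, h3, Matrix.mul_one]
  have ve : v * e = v := by rw [← h4, ← Matrix.mul_assoc, h3, Matrix.one_mul]
  have hab : (v * w') * (v' * w) = 1 := by
    calc (v * w') * (v' * w) = v * ((w' * v') * w) := by simp only [Matrix.mul_assoc]
      _ = 1 := by rw [h2, ew, h3]
  have hba : (v' * w) * (v * w') = 1 := by
    calc (v' * w) * (v * w') = v' * ((w * v) * w') := by simp only [Matrix.mul_assoc]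
      _ = 1 := by rw [h4, ew', h1]
  have h6 := h5.conj hab hba
  have h7 : cpL (v * w') (v' * w) (cpL w v (L1 (LH Q S P))) = cpL w' v' (L1 (LH Q S P)) := by
    have key : ∀ x : Matrix n n ℂ, (v' * w) * (v * x * w) * (v * w') = v' * x * w' := by
      intro x
      calc (v' * w) * (v * x * w) * (v * w') = v' * (w * v) * x * (w * v) * w' := by simp only [Matrix.mul_assoc]
        _ = v' * e * x * (e * w') := by rw [h4]; simp only [Matrix.mul_assoc]
        _ = v' * x * w' := by rw [ve', ew']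
    ext y
    constructor
    · rintro ⟨_, ⟨x, hx, rfl⟩, rfl⟩
      exact ⟨x, hx, key x⟩
    · rintro ⟨x, hx, rfl⟩
      exact ⟨_, ⟨x, hx, rfl⟩, (key x).symm⟩
  rw [h7] at h6
  exact h6

theorem TyBN.aut (σ : ℂ ≃+* ℂ) {e : Matrix n n ℂ} (h : TyBN Q S P e) : TyBN Q S P (e.map σ) := by
  obtain ⟨k, w, v, h3, h4, h5⟩ := h
  refine ⟨k, w.map σ, v.map σ, ?_, ?_, ?_⟩
  · rw [← map_mulσ', h3, Matrix.map_one _ (map_zero _) (map_one _)]
  · rw [← map_mulσ', h4]
  · refine h5.aut σ ?_ ?_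
    · rintro _ ⟨x, hx, rfl⟩
      exact ⟨x.map σ, L1_aut σ hx, by rw [map_mulσ', map_mulσ']⟩
    · rintro _ ⟨x, hx, rfl⟩
      refine ⟨x.map σ.symm, L1_aut σ.symm hx, ?_⟩
      have e2 : (v.map σ).map σ.symm = v := by
        ext i j
        simp
      have e3 : (w.map σ).map σ.symm = w := by
        ext i j
        simp
      rw [map_mulσ', map_mulσ', e2, e3]

theorem TyBN.of_range {e e' : Matrix n n ℂ} (h : TyBN Q S P e) (h1 : e * e' = e') (h2 : e' * e = e)
    (hc : ∀ x ∈ LH Q S P, x * e' = e' * x) : TyBN Q S P e' := by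
  obtain ⟨k, w, v, h3, h4, h5⟩ := h
  have ew : e * w = w := by rw [← h4, Matrix.mul_assoc, h3, Matrix.mul_one]
  have ew' : e' * w = w := by
    calc e' * w = e' * (e * w) := by rw [ew]
      _ = w := by rw [← Matrix.mul_assoc, h2, ew]
  refine ⟨k, w, v * e', ?_, ?_, ?_⟩
  · rw [Matrix.mul_assoc, ew', h3]
  · rw [← Matrix.mul_assoc, h4, h1]
  · have h7 : cpL w (v * e') (L1 (LH Q S P)) = cpL w v (L1 (LH Q S P)) := by
      have hc' : ∀ x ∈ L1 (LH Q S P), x * e' = e' * x := by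
        intro x hx
        obtain ⟨y, hy, c, rfl⟩ := mem_L1.1 hx
        rw [add_mul, mul_add, hc y hy, smul_mul_assoc, mul_smul_comm, one_mul, mul_one]
      have key : ∀ x ∈ L1 (LH Q S P), v * e' * x * w = v * x * w := by
        intro x hx
        calc v * e' * x * w = v * (e' * x) * w := by simp only [Matrix.mul_assoc]
          _ = v * x * (e' * w) := by rw [← hc' x hx]; simp only [Matrix.mul_assoc]
          _ = v * x * w := by rw [ew']
      ext y
      constructor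
      · rintro ⟨x, hx, rfl⟩
        exact ⟨x, hx, key x hx⟩
      · rintro ⟨x, hx, rfl⟩
        exact ⟨x, hx, (key x hx).symm⟩
    rw [h7]
    exact h5

/-- the condition depends only on the range of the block -/
theorem DomB.of_range {e e' : Matrix n n ℂ} (H : IsHW w Q S P) (he : IsBlk P e) (he' : IsBlk P e') (h1 : e * e' = e')
    (h2 : e' * e = e) (h : DomB w Q S P e) : DomB w Q S P e' := by
  have hPP : ∀ p, P p * P p = P p := fun p => by rw [H.mul, if_pos rfl]
  have hr : ∀ p, (e' * P p).rank = (e * P p).rank := fun p =>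
    rank_of_range h1 h2 (hPP p) (EC_P he.mem p) (EC_P he'.mem p)
  have hrk : e'.rank = e.rank := by
    have h4 := rank_of_range (F := (1 : Matrix n n ℂ)) h1 h2 (mul_one 1) (by rw [mul_one, one_mul])
      (by rw [mul_one, one_mul])
    rwa [mul_one, mul_one] at h4
  rcases h with ⟨p, hp⟩ | ⟨m, hm, hO, hD⟩
  · left
    refine ⟨p, ?_⟩
    rw [hr, hrk]
    exact hp
  · refine Or.inr ⟨m, hm, hO.of_range h1 h2, ?_⟩
    have hs : sB m S P e' = sB m S P e := by
      unfold sB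
      exact Finset.sum_congr rfl fun p _ => hr p
    rcases hD with h3 | h3
    · left
      calc e' * P m = P m * e' := EC_P he'.mem m
        _ = P m * e * e' := by rw [mul_assoc, h1]
        _ = e * P m * e' := by rw [← EC_P he.mem m]
        _ = e' := by rw [h3, h1]
    · right
      rw [hs, hr]
      exact h3

theorem map_refl14 (e : Matrix n n ℂ) : e.map (RingEquiv.refl ℂ) = e := by
  ext i j
  rfl

/-- the condition for all the conjugates depends only on the range of the block -/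
theorem orbit_range {e e' : Matrix n n ℂ} (H : IsHW w Q S P) (he : IsBlk P e) (he' : IsBlk P e') (h1 : e * e' = e')
    (h2 : e' * e = e) (h : ∀ σ : ℂ ≃+* ℂ, DomB w Q S P (e.map σ)) (σ : ℂ ≃+* ℂ) : DomB w Q S P (e'.map σ) := by
  refine DomB.of_range H (he.aut σ) (he'.aut σ) ?_ ?_ (h σ)
  · rw [← map_mulσ', h1]
  · rw [← map_mulσ', h2]

/-- the condition for all the conjugates of a conjugate -/
theorem orbit_aut {e : Matrix n n ℂ} (h : ∀ σ : ℂ ≃+* ℂ, DomB w Q S P (e.map σ)) (τ σ : ℂ ≃+* ℂ) :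
    DomB w Q S P ((e.map τ).map σ) := by
  rw [map_mapσ]
  exact h _

namespace IsHW

variable (H : IsHW w Q S P)
include H

section basis

variable {B Bi : Matrix n n ℂ} (h1 : B * Bi = 1) (h2 : Bi * B = 1) (hM : Mw w Q S P = Bᴴ * B)
include h1 h2 hM

theorem orth_fullO' {e x : Matrix n n ℂ} (hdom : ∀ σ : ℂ ≃+* ℂ, DomB w Q S P (e.map σ)) (hw2 : w = 2 * m)
    (he : IsBlk P e) (hx : x ∈ EC P) (hxs : xᵀ * toC Q = toC Q * x) (hx0 : eᵀ * (toC Q * x) * e ≠ 0)
    (h3 : 3 ≤ e.rank) {σ0 : ℂ ≃+* ℂ} (hσ : 2 ≤ sB m S P (e.map σ0)) : FullO Q S P e x := by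
  classical
  have hQ : ∀ τ : ℂ ≃+* ℂ, (toC Q).map τ = toC Q := by
    intro τ
    ext i j
    simp [toC]
  have ht : ∀ (τ : ℂ ≃+* ℂ) (y : Matrix n n ℂ), (y.map τ)ᵀ = yᵀ.map τ := fun τ y => rfl
  have hf := he.aut σ0
  obtain ⟨f', hf', hfs, a1, a2⟩ := H.herm_rep h1 h2 hM hf
  have hPP : ∀ p, P p * P p = P p := fun p => by rw [H.mul, if_pos rfl]
  have hr : ∀ p, (f' * P p).rank = (e.map σ0 * P p).rank := fun p =>
    rank_of_range a1 a2 (hPP p) (EC_P hf.mem p) (EC_P hf'.mem p)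
  have hrk : f'.rank = e.rank := by
    have h4 := rank_of_range (F := (1 : Matrix n n ℂ)) a1 a2 (mul_one 1) (by rw [mul_one, one_mul])
      (by rw [mul_one, one_mul])
    rw [mul_one, mul_one] at h4
    rw [h4, rank_aut σ0 he.idem]
  have hs : sB m S P f' = sB m S P (e.map σ0) := by
    unfold sB
    exact Finset.sum_congr rfl fun p _ => hr p
  have hx1 : x.map σ0 ∈ EC P := EC_aut σ0 hx
  have hx2 : (x.map σ0)ᵀ * toC Q = toC Q * x.map σ0 := by
    have h4 := congrArg (fun Z : Matrix n n ℂ => Z.map σ0) hxs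
    simp only [map_mulσ, hQ] at h4
    exact h4
  have hx3 : (e.map σ0)ᵀ * (toC Q * x.map σ0) * e.map σ0 ≠ 0 := by
    intro h0
    apply hx0
    apply mapσ_eq_iff σ0
    simp only [map_mulσ, hQ]
    rw [Matrix.map_zero _ (map_zero _)]
    exact h0
  have hx4 := orth_range a2 hx3
  have hO : OrthB Q P f' := ⟨_, hx1, hx2, hx4⟩
  have hfull : FullO Q S P f' (x.map σ0) := by
    refine H.orth_full h1 h2 hM hw2 hf' hfs hx1 hx2 hx4 (by rw [hs]; exact hσ) fun σ => ?_
    have hb := hf'.aut σ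
    have hdb : DomB w Q S P (f'.map σ) := orbit_range H hf hf' a1 a2 (fun τ => orbit_aut hdom σ0 τ) σ
    rcases H.orth_cond h1 h2 hM hw2 hb (hO.aut σ) (by rw [rank_aut σ hf'.idem, hrk]; exact h3) hdb with h | h
    · exact Or.inl h
    · exact Or.inr h.2.1
  have hf2 := hfull.of_range a2 a1
  have hf3 := hf2.aut σ0.symm
  rwa [map_symmσ', map_symmσ'] at hf3

theorem good_all' {e : Matrix n n ℂ} (hdom : ∀ σ : ℂ ≃+* ℂ, DomB w Q S P (e.map σ)) (he : IsBlk P e)
    (hes : (cj B Bi e)ᴴ = cj B Bi e) (h3 : 3 ≤ e.rank) (hns : ∀ c : ℂ, hw w S P * e ≠ c • e)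
    {k : Type*} [Fintype k] [DecidableEq k] {u : Matrix n k ℂ} (hu : uᴴ * u = 1) (huu : u * uᴴ = cj B Bi e) :
    ∃ c : ℝ, Good (cpL u uᴴ (L1 (LB Q S P B Bi))) (uᴴ * (cj B Bi (hw w S P) - (c : ℂ) • (1 : Matrix n n ℂ)) * u)
      (fun μ => uᴴ * EW w S P B Bi (μ + c) * u) ((LamW w S).image (fun μ => μ - c)) := by
  classical
  have hdom0 : DomB w Q S P e := by
    have h0 := hdom (RingEquiv.refl ℂ)
    rwa [map_refl14] at h0
  by_cases hG : ∀ σ : ℂ ≃+* ℂ, DomG P (e.map σ)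
  · exact H.good_block h1 h2 hM he hG hes h3 hns hu huu
  push Not at hG
  obtain ⟨σ0, hσ0⟩ := hG
  rcases hdom σ0 with h4 | ⟨m, hw2, hO, hMm⟩
  · exact absurd h4 hσ0
  have hσ2 : 2 ≤ sB m S P (e.map σ0) := by
    rcases hMm with h5 | h5
    · exfalso
      apply hσ0
      refine ⟨m, Or.inl ?_⟩
      rw [h5]
      exact Nat.le_succ _
    · exact h5.1
  have hO1 := hO.aut σ0.symm
  rw [map_symmσ'] at hO1
  obtain ⟨x, hx, hxs, hx0⟩ := hO1
  have hfull := H.orth_fullO' h1 h2 hM hdom hw2 he hx hxs hx0 h3 hσ2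
  have hcond := (H.orth_cond h1 h2 hM hw2 he ⟨x, hx, hxs, hx0⟩ h3 hdom0).resolve_left (by
    intro h5
    apply hns ((2 * m - w : ℤ) : ℂ)
    have a4 : hw w S P * P m = ((2 * m - w : ℤ) : ℂ) • P m :=
      H.sum_mul_P (fun p => ((2 * p - w : ℤ) : ℂ)) m
    have hPe := EC_P he.mem m
    calc hw w S P * e = hw w S P * (P m * e) := by rw [← hPe, h5]
      _ = ((2 * m - w : ℤ) : ℂ) • (P m * e) := by rw [← mul_assoc, a4, smul_mul_assoc]
      _ = _ := by rw [← hPe, h5])
  have hcL := H.LB_com h1 h2 hM he.mem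
  obtain ⟨E', hE', r1, Fi, τ, hFi, hFs, hτ, D⟩ : ∃ E' : ℝ → Matrix k k ℂ,
      E' = (fun μ => uᴴ * EW w S P B Bi μ * u) ∧
      (∀ p : ℤ, (E' ((2 * p - w : ℤ) : ℝ)).rank = (e * P p).rank) ∧
      ∃ (Fi : Matrix k k ℂ) (τ : Matrix k k ℂ →ₗ[ℂ] Matrix k k ℂ), Fi * (uᵀ * (Biᵀ * (toC Q * x) * Bi) * u) = 1 ∧
      (uᵀ * (Biᵀ * (toC Q * x) * Bi) * u)ᵀ = uᵀ * (Biᵀ * (toC Q * x) * Bi) * u ∧
      (∀ y, τ y = Fi * yᵀ * (uᵀ * (Biᵀ * (toC Q * x) * Bi) * u)) ∧
      Dat τ (cpL u uᴴ (LB Q S P B Bi)) (uᴴ * cj B Bi (hw w S P) * u) E' (LamW w S) := by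
    obtain ⟨Fi, τ, a1, a2, a3, D⟩ := H.orth_dat h1 h2 hM hw2 he hx hxs hx0 hu huu
    exact ⟨fun μ => uᴴ * EW w S P B Bi μ * u, rfl, H.blk_rank h1 h2 hM he hu huu, Fi, τ, a1, a2, a3, D⟩
  have hPpr : (Pp E' (LamW w S)).rank = sB m S P e := by
    rw [D.rank_Pp]
    exact sum_LamW r1 hw2
  have r0 := r1 m
  rw [show (2 * m - w : ℤ) = 0 by omega, Int.cast_zero] at r0
  have hGood : Good (L1 (cpL u uᴴ (LB Q S P B Bi))) (uᴴ * cj B Bi (hw w S P) * u) E' (LamW w S) := by
    refine good_of_skew D hFi hFs hτ ?_ (by rw [hPpr]; exact hcond.1) (by rw [hPpr, r0]; exact hcond.2.1)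
      (by rw [r0]; exact hcond.2.2)
    intro y hy
    set F := uᵀ * (Biᵀ * (toC Q * x) * Bi) * u with hF
    have hFF : F * Fi = 1 := mul_eq_one_comm.1 hFi
    have hsk : yᵀ * F + F * y = 0 := by
      have h5 : yᵀ * F = -(F * y) := by
        calc yᵀ * F = (F * Fi) * yᵀ * F := by rw [hFF, Matrix.one_mul]
          _ = F * (Fi * yᵀ * F) := by simp only [Matrix.mul_assoc]
          _ = -(F * y) := by rw [← hτ y, hy, Matrix.mul_neg]
      rw [h5, neg_add_cancel]
    have hVW : (uᴴ * B) * (Bi * u) = 1 := by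
      calc (uᴴ * B) * (Bi * u) = uᴴ * (B * Bi) * u := by simp only [Matrix.mul_assoc]
        _ = 1 := by rw [h1, Matrix.mul_one, hu]
    have hWV : (Bi * u) * (uᴴ * B) = e := by
      calc (Bi * u) * (uᴴ * B) = Bi * (u * uᴴ) * B := by simp only [Matrix.mul_assoc]
        _ = cj Bi B (cj B Bi e) := by rw [huu]; rfl
        _ = e := cj_cj h2 _
    have hFW : F = (Bi * u)ᵀ * (toC Q * x) * (Bi * u) := by
      rw [hF, Matrix.transpose_mul]
      simp only [Matrix.mul_assoc]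
    have heW : e * (Bi * u) = Bi * u := by rw [← hWV, Matrix.mul_assoc, hVW, Matrix.mul_one]
    have hVe : (uᴴ * B) * e = uᴴ * B := by rw [← hWV, ← Matrix.mul_assoc, hVW, Matrix.one_mul]
    set W := Bi * u with hW
    set V := uᴴ * B with hV
    have hform : eᵀ * (toC Q * x) * e = Vᵀ * F * V := by
      rw [hFW, ← hWV, Matrix.transpose_mul]
      simp only [Matrix.mul_assoc]
    obtain ⟨Y, hY, hYX⟩ := hfull (W * y * V) (by
        calc e * (W * y * V) * e = (e * W) * y * (V * e) := by simp only [Matrix.mul_assoc]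
          _ = W * y * V := by rw [heW, hVe]) (by
        rw [hform]
        calc (W * y * V)ᵀ * (Vᵀ * F * V) + Vᵀ * F * V * (W * y * V)
            = Vᵀ * (yᵀ * (V * W)ᵀ * F) * V + Vᵀ * (F * (V * W) * y) * V := by
              rw [Matrix.transpose_mul (W * y) V, Matrix.transpose_mul W y, Matrix.transpose_mul V W]
              simp only [Matrix.mul_assoc]
          _ = Vᵀ * (yᵀ * F + F * y) * V := by
              rw [hVW, Matrix.transpose_one, Matrix.mul_one, Matrix.mul_one, Matrix.mul_add, Matrix.add_mul]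
          _ = 0 := by rw [hsk, Matrix.mul_zero, Matrix.zero_mul])
    refine ⟨cj B Bi Y, by rw [mem_LB, cj_cj h2]; exact hY, ?_⟩
    calc y = (V * W) * y * (V * W) := by rw [hVW, Matrix.one_mul, Matrix.mul_one]
      _ = V * (W * y * V) * W := by simp only [Matrix.mul_assoc]
      _ = V * (Y * e) * W := by rw [hYX]
      _ = V * Y * (e * W) := by simp only [Matrix.mul_assoc]
      _ = V * Y * W := by rw [heW]
      _ = uᴴ * (B * Y * Bi) * u := by
        rw [hV, hW]
        simp only [Matrix.mul_assoc]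
  refine ⟨0, ?_⟩
  rw [L1_cpL hu] at hGood
  have e1 : (fun μ : ℝ => uᴴ * EW w S P B Bi (μ + 0) * u) = E' := by
    rw [hE']
    funext μ
    rw [add_zero]
  have e2 : (LamW w S).image (fun μ : ℝ => μ - 0) = LamW w S := by
    simp
  rw [e1, e2, Complex.ofReal_zero, zero_smul, sub_zero]
  exact hGood

/-- if all but at most one of the Hodge numbers of the block is on one piece, the Lie algebra contains everything -/
theorem sl_of_p {e : Matrix n n ℂ} (he : IsBlk P e) (hns : ∀ c : ℂ, hw w S P * e ≠ c • e)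
    {k : Type*} [Fintype k] [DecidableEq k] {u : Matrix n k ℂ} (hu : uᴴ * u = 1) (huu : u * uᴴ = cj B Bi e) {p : ℤ}
    (hp : e.rank ≤ (e * P p).rank + 1) : ∀ x : Matrix k k ℂ, x.trace = 0 → x ∈ cpL u uᴴ (L1 (LB Q S P B Bi)) := by
  intro x hx
  have hee' : cj B Bi e * cj B Bi e = cj B Bi e := by rw [cj_mul h2, he.idem]
  have hcard : Fintype.card k = e.rank := by
    rw [← rank_cj h1 h2 he.idem]
    exact cp_card hu huu hee'
  have hcL := H.LB_com h1 h2 hM he.mem
  have hcL1 : ∀ x ∈ L1 (LB Q S P B Bi), x * cj B Bi e = cj B Bi e * x := by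
    intro x hx
    obtain ⟨y, hy, c, rfl⟩ := mem_L1.1 hx
    rw [add_mul, mul_add, hcL y hy, smul_mul_assoc, mul_smul_comm, one_mul, mul_one]
  set c : ℝ := ((2 * p - w : ℤ) : ℝ) with hc
  have G0 := ((H.grW h1 h2 hM).addOne.shift one_L1 c).compress hu huu hcL1
  have hPe := EC_P he.mem p
  have hPP : P p * P p = P p := by rw [H.mul, if_pos rfl]
  have hE0 : uᴴ * EW w S P B Bi (0 + c) * u = uᴴ * cj B Bi (P p) * u := by
    rw [zero_add, hc, H.EW_int]
  have a1 : cj B Bi (P p) * cj B Bi (P p) = cj B Bi (P p) := by rw [cj_mul h2, hPP]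
  have a2 : cj B Bi (P p) * cj B Bi e = cj B Bi e * cj B Bi (P p) := by rw [cj_mul h2, cj_mul h2, hPe]
  have i0 := cp_idem hu huu a1 a2
  have r0 := H.blk_rank h1 h2 hM he hu huu p
  rw [H.EW_int] at r0
  have hcomp := rank_compl i0
  refine G0.one_sl ?_ ?_ ?_ hx
  · intro T hT
    exact H.blk_irr h1 h2 hM he hu huu T fun x hx => by
      obtain ⟨y, hy, rfl⟩ := hx
      exact hT _ ⟨y, le_L1 hy, rfl⟩
  · intro hE
    rw [hE0] at hE
    apply hns ((2 * p - w : ℤ) : ℂ)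
    have b0 : e * P p = e := by
      apply H.untouched_of_rank h1 h2 hM he
      rw [← r0, hE, Matrix.rank_one, hcard]
    have a4 : hw w S P * P p = ((2 * p - w : ℤ) : ℂ) • P p :=
      H.sum_mul_P (fun p => ((2 * p - w : ℤ) : ℂ)) p
    calc hw w S P * e = hw w S P * (P p * e) := by rw [← hPe, b0]
      _ = ((2 * p - w : ℤ) : ℂ) • (P p * e) := by rw [← mul_assoc, a4, smul_mul_assoc]
      _ = _ := by rw [← hPe, b0]
  · rw [hE0]
    omega

/-- the size of the block -/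
theorem nine_le {e : Matrix n n ℂ} (hdom : ∀ σ : ℂ ≃+* ℂ, DomB w Q S P (e.map σ)) (he : IsBlk P e)
    (hns : ∀ c : ℂ, hw w S P * e ≠ c • e) {k : Type*} [Fintype k] [DecidableEq k] {u : Matrix n k ℂ}
    (hu : uᴴ * u = 1) (huu : u * uᴴ = cj B Bi e) :
    (∀ x : Matrix k k ℂ, x.trace = 0 → x ∈ cpL u uᴴ (L1 (LB Q S P B Bi))) ∨ 9 ≤ e.rank := by
  by_cases hG : ∀ σ : ℂ ≃+* ℂ, DomG P (e.map σ)
  · have hG0 := hG (RingEquiv.refl ℂ)
    rw [map_refl14] at hG0
    obtain ⟨p, hp⟩ := hG0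
    by_cases hp1 : e.rank ≤ (e * P p).rank + 1
    · exact Or.inl (H.sl_of_p h1 h2 hM he hns hu huu hp1)
    · right
      have hp2 := hp.resolve_left hp1
      have hp3 : 3 ≤ e.rank - (e * P p).rank + 1 := by omega
      calc 9 = 3 ^ 2 := by norm_num
        _ ≤ (e.rank - (e * P p).rank + 1) ^ 2 := Nat.pow_le_pow_left hp3 2
        _ ≤ e.rank := hp2
  · push Not at hG
    obtain ⟨σ0, hσ0⟩ := hG
    right
    rcases hdom σ0 with h4 | ⟨m, hw2, hO, hMm⟩
    · exact absurd h4 hσ0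
    · rcases hMm with h5 | ⟨h5, h6⟩
      · exfalso
        apply hσ0
        refine ⟨m, Or.inl ?_⟩
        rw [h5]
        exact Nat.le_succ _
      · have h7 := (H.orth_nums h1 h2 hM hw2 (he.aut σ0) hO).1
        rw [rank_aut σ0 he.idem] at h7
        nlinarith

/-- every Hermitian block on which `hw` is not scalar is of full type -/
theorem tyBN_herm {e : Matrix n n ℂ} (hdom : ∀ σ : ℂ ≃+* ℂ, DomB w Q S P (e.map σ)) (he : IsBlk P e)
    (hes : (cj B Bi e)ᴴ = cj B Bi e) (hr2 : 2 ≤ e.rank) (hns : ∀ c : ℂ, hw w S P * e ≠ c • e) : TyBN Q S P e := by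
  classical
  have hee' : cj B Bi e * cj B Bi e = cj B Bi e := by rw [cj_mul h2, he.idem]
  obtain ⟨k, u, hu, huu⟩ : ∃ (k : ℕ) (u : Matrix n (Fin k) ℂ), uᴴ * u = 1 ∧ u * uᴴ = cj B Bi e :=
    ⟨_, exists_onbE hee' hes⟩
  have hcard : Fintype.card (Fin k) = e.rank := by
    rw [← rank_cj h1 h2 he.idem]
    exact cp_card hu huu hee'
  refine ⟨k, Bi * u, uᴴ * B, ?_, ?_, ?_⟩
  · calc (uᴴ * B) * (Bi * u) = uᴴ * (B * Bi) * u := by simp only [Matrix.mul_assoc]
      _ = 1 := by rw [h1, Matrix.mul_one, hu]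
  · calc (Bi * u) * (uᴴ * B) = Bi * (u * uᴴ) * B := by simp only [Matrix.mul_assoc]
      _ = cj Bi B (cj B Bi e) := by rw [huu]; rfl
      _ = e := cj_cj h2 _
  rw [← cpL_basis h1 h2]
  by_cases h3 : 3 ≤ e.rank
  · obtain ⟨c, hG⟩ := H.good_all' h1 h2 hM hdom he hes h3 hns hu huu
    refine ⟨hG.ty, ?_⟩
    rw [hcard]
    exact H.nine_le h1 h2 hM hdom he hns hu huu
  · have hr : e.rank = 2 := by omega
    obtain ⟨p, hp⟩ : ∃ p, e * P p ≠ 0 := by
      by_contra hcon
      push Not at hcon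
      apply he.ne
      calc e = e * ∑ p ∈ S, P p := by rw [H.sum, mul_one]
        _ = 0 := by
          rw [Finset.mul_sum]
          exact Finset.sum_eq_zero fun p _ => hcon p
    have hpos : 1 ≤ (e * P p).rank := by
      rw [Nat.one_le_iff_ne_zero]
      intro h0
      apply hp
      rw [Matrix.rank, Submodule.finrank_eq_zero, LinearMap.range_eq_bot] at h0
      exact (LinearEquiv.map_eq_zero_iff Matrix.toLin').1 h0
    have hsl := H.sl_of_p h1 h2 hM he hns hu huu (p := p) (by omega)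
    exact ⟨Or.inl hsl, Or.inl hsl⟩

end basis

/-- **a block of rank at least two all of whose conjugates satisfy the condition is of full type** -/
theorem tyBN_orbit {e : Matrix n n ℂ} (hdom : ∀ σ : ℂ ≃+* ℂ, DomB w Q S P (e.map σ)) (he : IsBlk P e)
    (hr2 : 2 ≤ e.rank) : TyBN Q S P e := by
  obtain ⟨B, Bi, _, h1, h2, _, _, hM⟩ := H.exists_basis
  obtain ⟨σ, hσ⟩ := H.exists_nonscalar he (by omega)
  have hf := he.aut σ
  obtain ⟨f', hf', hfs, a1, a2⟩ := H.herm_rep h1 h2 hM hf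
  have hrk : f'.rank = e.rank := by
    have h4 := rank_of_range (F := (1 : Matrix n n ℂ)) a1 a2 (mul_one 1) (by rw [mul_one, one_mul])
      (by rw [mul_one, one_mul])
    rw [mul_one, mul_one] at h4
    rw [h4, rank_aut σ he.idem]
  have hns : ∀ c : ℂ, hw w S P * f' ≠ c • f' := by
    intro c hc
    apply hσ c
    calc hw w S P * e.map σ = hw w S P * f' * e.map σ := by rw [mul_assoc, a2]
      _ = c • e.map σ := by rw [hc, smul_mul_assoc, a2]
  have hdom' : ∀ τ : ℂ ≃+* ℂ, DomB w Q S P (f'.map τ) := fun τ =>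
    orbit_range H hf hf' a1 a2 (fun τ => orbit_aut hdom σ τ) τ
  have h4 := H.tyBN_herm h1 h2 hM hdom' hf' hfs (by omega) hns
  have h5 := h4.of_range a2 a1 (fun x hx => H.LH_EC hx hf.mem)
  have h6 := h5.aut σ.symm
  rwa [map_symmσ'] at h6

/-- the same for the Lie algebra of the Mumford-Tate group -/
theorem tyN_orbit {e : Matrix n n ℂ} (hdom : ∀ σ : ℂ ≃+* ℂ, DomB w Q S P (e.map σ)) (he : IsBlk P e)
    {r : ℕ} {W : Matrix n (Fin r) ℂ} {V : Matrix (Fin r) n ℂ} (hVW : V * W = 1) (hWV : W * V = e) (hr : 2 ≤ r) :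
    TyN (cpS W V (LG (MT S P))) := by
  rw [H.cpS_LG_MT hVW]
  refine (H.tyBN_orbit hdom he ?_).any hVW hWV
  rw [_root_.MH.blk_rank he hVW hWV]
  exact hr

end IsHW

end MH
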