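import Pool.Agent.Helper14.GP.Ty
import Pool.Agent.Helper98.GP.TyN
import Pool.Agent.Helper48.GH.Fix3

/-!
Project GP (MP_b8862a_ag): the condition of the strengthened theorem and the type of the blocks.
-/

set_option linter.unusedSectionVars false

open Matrix Module GH

namespace MH

variable {n : Type*} [Fintype n] [DecidableEq n]
variable {w : ℤ} {Q : Matrix n n ℚ} {S : Finset ℤ} {P : ℤ → Matrix n n ℂ}

/-- The condition on a block: all its conjugates satisfy `DomB`, or one of them does and its Hodge numbers have no common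
divisor. -/
def DomN (w : ℤ) (Q : Matrix n n ℚ) (S : Finset ℤ) (P : ℤ → Matrix n n ℂ) (e : Matrix n n ℂ) : Prop :=
  (∀ σ : ℂ ≃+* ℂ, DomB w Q S P (e.map σ)) ∨
    ∃ σ : ℂ ≃+* ℂ, DomB w Q S P (e.map σ) ∧ ∀ d : ℕ, (∀ p, d ∣ (e.map σ * P p).rank) → d = 1

namespace IsHW

variable (H : IsHW w Q S P)
include H

theorem isHTw_id : IsHTw w Q S (MT S P) P := by
  have h1 := H.isHTw_MT (RingEquiv.refl ℂ)
  have h2 : (fun p => (P p).map (RingEquiv.refl ℂ)) = P := by
    funext p
    exact map_refl14 (P p)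
  rwa [h2] at h1

/-- **every block of rank at least two is of full type** -/
theorem tyBN_all (hdom : ∀ f, IsBlk P f → DomN w Q S P f) {e : Matrix n n ℂ} (he : IsBlk P e) (hr2 : 2 ≤ e.rank) :
    TyBN Q S P e := by
  rcases hdom e he with h | ⟨σ, hD, hg⟩
  · exact H.tyBN_orbit h he hr2
  · have hf := he.aut σ
    obtain ⟨r, W, V, hVW, hWV⟩ := exists_coord48 hf.idem
    have hrr : (e.map σ).rank = r := _root_.MH.blk_rank hf hVW hWV
    have hr : 2 ≤ r := by
      rw [← hrr, rank_aut σ he.idem]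
      exact hr2
    have h1 := IsGalU.tyN H H.isGalU_MT hf hVW hWV hr H.isHTw_id hg hD
    rw [H.cpS_LG_MT hVW] at h1
    have h2 : TyBN Q S P (e.map σ) := ⟨r, W, V, hVW, hWV, h1⟩
    have h3 := h2.aut σ.symm
    rwa [map_symmσ'] at h3

end IsHW

end MH
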